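import Pool.Agent.E8helper83.FP.MainB

/-!
Library E8helper83.FP (helper83): the logarithmically averaged four-term sums of the Liouville function
along progressions with an arbitrary difference.
-/

set_option autoImplicit false

namespace Pool.Agent.E8helper83.FP.B

open Finset Filter Topology
open Pool.Agent.H376R2.MR (lam)

/-- sums over the multiples of `p` -/
lemma sum_dvd (p : ℕ) (hp : 1 ≤ p) (B : ℕ → ℝ) (X : ℕ) :
    ∑ n ∈ Icc 1 X, (if p ∣ n then B (n / p) else 0) / (n : ℝ) =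
      1 / (p : ℝ) * ∑ m ∈ Icc 1 (X / p), B m / m := by
  have hp0 : (0 : ℝ) < p := by exact_mod_cast (by omega : 0 < p)
  rw [mul_sum]
  symm
  rw [← sum_filter_add_sum_filter_not (Icc 1 X) (fun n => p ∣ n)]
  have hz : ∑ x ∈ (Icc 1 X).filter (fun n => ¬ p ∣ n), (if p ∣ x then B (x / p) else 0) / (x : ℝ) = 0 := by
    apply sum_eq_zero
    intro x hx
    rw [if_neg (mem_filter.1 hx).2, zero_div]
  rw [hz, add_zero]
  refine sum_bij (fun m _ => p * m) ?_ ?_ ?_ ?_
  · intro m hm
    rw [mem_Icc] at hm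
    rw [mem_filter, mem_Icc]
    refine ⟨⟨Nat.one_le_iff_ne_zero.2 (Nat.mul_ne_zero (by omega) (by omega)), ?_⟩, dvd_mul_right _ _⟩
    calc p * m ≤ p * (X / p) := Nat.mul_le_mul_left _ hm.2
      _ ≤ X := Nat.mul_div_le X p
  · intro a _ b _ hab
    exact Nat.eq_of_mul_eq_mul_left (by omega) hab
  · intro n hn
    rw [mem_filter, mem_Icc] at hn
    obtain ⟨k, rfl⟩ := hn.2
    refine ⟨k, ?_, rfl⟩
    rw [mem_Icc]
    constructor
    · apply Nat.one_le_iff_ne_zero.2
      rintro rfl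
      omega
    · rw [Nat.le_div_iff_mul_le (by omega)]
      have := hn.1.2
      linarith [mul_comm k p]
  · intro m hm
    rw [mem_Icc] at hm
    rw [if_pos (dvd_mul_right p m), Nat.mul_div_cancel_left m (by omega)]
    push_cast
    have hm0 : (0 : ℝ) < m := by exact_mod_cast (by omega : 0 < m)
    field_simp

/-- the four-term product -/
def F4 (d n : ℕ) : ℤ := lam n * lam (n + d) * lam (n + 2 * d) * lam (n + 3 * d)

lemma lam_mul (m n : ℕ) (hm : m ≠ 0) (hn : n ≠ 0) : lam (m * n) = lam m * lam n := by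
  unfold Pool.Agent.H376R2.MR.lam
  rw [ArithmeticFunction.cardFactors_mul hm hn, pow_add]

lemma lam_sq (m : ℕ) : lam m * lam m = 1 := by
  rcases lam_sg m with h | h <;> rw [h] <;> norm_num

lemma F4_mul (m e k : ℕ) (hm : 1 ≤ m) (hk : 1 ≤ k) : F4 (m * e) (m * k) = F4 e k := by
  unfold F4
  have e1 : m * k + m * e = m * (k + e) := by ring
  have e2 : m * k + 2 * (m * e) = m * (k + 2 * e) := by ring
  have e3 : m * k + 3 * (m * e) = m * (k + 3 * e) := by ring
  rw [e1, e2, e3, lam_mul m k (by omega) (by omega), lam_mul m (k + e) (by omega) (by omega),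
    lam_mul m (k + 2 * e) (by omega) (by omega), lam_mul m (k + 3 * e) (by omega) (by omega)]
  have h := lam_sq m
  calc lam m * lam k * (lam m * lam (k + e)) * (lam m * lam (k + 2 * e)) * (lam m * lam (k + 3 * e)) =
      (lam m * lam m) * (lam m * lam m) * (lam k * lam (k + e) * lam (k + 2 * e) * lam (k + 3 * e)) := by ring
    _ = lam k * lam (k + e) * lam (k + 2 * e) * lam (k + 3 * e) := by rw [h]; ring

lemma F4_pair (d n : ℕ) : 2 * F4 d n ≤ 1 + lam n * lam (n + 4 * d) + (F4 d n - F4 d (n + d)) := by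
  unfold F4
  have e1 : n + d + d = n + 2 * d := by ring
  have e2 : n + d + 2 * d = n + 3 * d := by ring
  have e3 : n + d + 3 * d = n + 4 * d := by ring
  rw [e1, e2, e3]
  rcases lam_sg n with h0 | h0 <;> rcases lam_sg (n + d) with h1 | h1 <;>
    rcases lam_sg (n + 2 * d) with h2 | h2 <;> rcases lam_sg (n + 3 * d) with h3 | h3 <;>
    rcases lam_sg (n + 4 * d) with h4 | h4 <;> rw [h0, h1, h2, h3, h4] <;> norm_num

lemma F4_abs (d n : ℕ) : |(F4 d n : ℝ)| ≤ 1 := by
  unfold F4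
  push_cast
  rw [abs_mul, abs_mul, abs_mul, lam_abs, lam_abs, lam_abs, lam_abs]
  norm_num

theorem fourAll (a b e : ℕ) (he : e.Coprime 6) : ∃ X₀ : ℕ, ∀ X : ℕ, X₀ ≤ X →
    ∑ n ∈ Icc 1 X, (F4 (2 ^ a * 3 ^ b * e) n : ℝ) / n ≤
      (1 / 2 - 57 / 2000 * (1 / (2 ^ a * 3 ^ b : ℝ))) * Real.log X := by
  classical
  set m : ℕ := 2 ^ a * 3 ^ b with hm
  have hm1 : 1 ≤ m := Nat.one_le_iff_ne_zero.2 (by positivity)
  have hm0 : (0 : ℝ) < m := by exact_mod_cast (by omega : 0 < m)
  have hmr : (2 ^ a * 3 ^ b : ℝ) = m := by rw [hm]; push_cast; ring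
  rw [hmr]
  have he1 : 1 ≤ e := by
    rcases Nat.eq_zero_or_pos e with h | h
    · subst h; norm_num at he
    · exact h
  set d : ℕ := m * e with hd
  have hd1 : 1 ≤ d := Nat.one_le_iff_ne_zero.2 (Nat.mul_ne_zero (by omega) (by omega))
  set w : ℕ → ℝ := fun n => if m ∣ n then 0 else 1 with hw
  have hwq : ∀ n, w (n + m) = w n := by
    intro n
    rw [hw]
    simp only
    have : m ∣ n + m ↔ m ∣ n := Nat.dvd_add_self_right
    simp only [this]
  have hwd : ∀ n, w (n + d) = w n := by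
    intro n
    rw [hw]
    simp only
    have : m ∣ n + d ↔ m ∣ n := Nat.dvd_add_left (dvd_mul_right m e)
    simp only [this]
  have hw0 : ∀ n, 0 ≤ w n := by
    intro n
    rw [hw]
    simp only
    split_ifs <;> norm_num
  have hw1 : ∀ n, |w n| ≤ 1 := by
    intro n
    rw [hw]
    simp only
    split_ifs <;> norm_num
  obtain ⟨X₁, h1⟩ := fourA e he
  obtain ⟨X₂, h2⟩ := two_log (4 * d) (by omega) m hm1 w hw1 hwq (1 / (16000 * m)) (by positivity)
  obtain ⟨X₃, h3⟩ := eventually_atTop.1 (log_atTop'.eventually_ge_atTop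
    (16000 * (m : ℝ) * (1 + Real.log m + 2 * d)))
  refine ⟨m * X₁ + m + X₂ + X₃ + 1, fun X hX => ?_⟩
  have hXm : X₁ ≤ X / m := by
    rw [Nat.le_div_iff_mul_le (by omega)]
    calc X₁ * m = m * X₁ := mul_comm _ _
      _ ≤ X := by omega
  have hX0 : (0 : ℝ) < X := by exact_mod_cast (by omega : 0 < X)
  have k1 := h1 (X / m) hXm
  have k2 := h2 X (by omega)
  have k3 := h3 X (by omega)
  have hlogm : 0 ≤ Real.log m := Real.log_natCast_nonneg m
  -- splitting
  have hsplit : ∀ n ∈ Icc 1 X, (F4 d n : ℝ) / n =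
      (if m ∣ n then (F4 e (n / m) : ℝ) else 0) / n + w n * (F4 d n : ℝ) / n := by
    intro n hn
    rw [mem_Icc] at hn
    rw [hw]
    simp only
    by_cases hmn : m ∣ n
    · rw [if_pos hmn, if_pos hmn]
      obtain ⟨k, rfl⟩ := hmn
      have hk : 1 ≤ k := by
        apply Nat.one_le_iff_ne_zero.2
        rintro rfl
        omega
      rw [Nat.mul_div_cancel_left k (by omega), hd, F4_mul m e k hm1 hk]
      ring
    · rw [if_neg hmn, if_neg hmn]
      ring
  rw [sum_congr rfl hsplit, sum_add_distrib, sum_dvd m hm1 (fun k => (F4 e k : ℝ)) X]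
  -- the first part
  have p1 : 1 / (m : ℝ) * ∑ k ∈ Icc 1 (X / m), (F4 e k : ℝ) / k ≤ 1 / (m : ℝ) * ((3771 / 8000) * Real.log X) := by
    apply mul_le_mul_of_nonneg_left _ (by positivity)
    have q1 : ∑ k ∈ Icc 1 (X / m), (F4 e k : ℝ) / k ≤ (3771 / 8000) * Real.log ((X / m : ℕ) : ℝ) := by
      exact k1
    refine q1.trans ?_
    apply mul_le_mul_of_nonneg_left _ (by norm_num)
    apply Real.log_le_log
    · have : 0 < X / m := Nat.div_pos (by omega) (by omega)
      exact_mod_cast this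
    · exact_mod_cast Nat.div_le_self X m
  -- the second part
  have p2 : 2 * ∑ n ∈ Icc 1 X, w n * (F4 d n : ℝ) / n ≤ ∑ n ∈ Icc 1 X, w n / n +
      ∑ n ∈ Icc 1 X, (w n * (lam n : ℤ) * (lam (n + 4 * d) : ℤ)) / n +
      ∑ n ∈ Icc 1 X, (w n * (F4 d n : ℝ) - w (n + d) * (F4 d (n + d) : ℝ)) / n := by
    rw [mul_sum, ← sum_add_distrib, ← sum_add_distrib]
    apply sum_le_sum
    intro n hn
    rw [mem_Icc] at hn
    have hn0 : (0 : ℝ) < n := by exact_mod_cast hn.1
    rw [hwd]
    have q : (2 * (F4 d n : ℝ)) ≤ 1 + (lam n : ℝ) * (lam (n + 4 * d) : ℝ) + ((F4 d n : ℝ) - (F4 d (n + d) : ℝ)) := by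
      exact_mod_cast F4_pair d n
    have q2 := mul_le_mul_of_nonneg_left q (hw0 n)
    have q3 := div_le_div_of_nonneg_right q2 hn0.le
    refine le_trans (le_of_eq ?_) (q3.trans (le_of_eq ?_)) <;> ring
  have p3 := (abs_le.1 k2).2
  have p4 := (abs_le.1 (shift_log (fun n => w n * (F4 d n : ℝ)) 1 (fun n => by
    rw [abs_mul]
    calc |w n| * |(F4 d n : ℝ)| ≤ 1 * 1 := mul_le_mul (hw1 n) (F4_abs d n) (abs_nonneg _) (by norm_num)
      _ = 1 := by norm_num) d X)).2
  -- the weights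
  have p5 : ∑ n ∈ Icc 1 X, w n / n ≤ (1 - 1 / m) * Real.log X + 1 + Real.log m := by
    have q1 : ∑ n ∈ Icc 1 X, w n / n = ∑ n ∈ Icc 1 X, (1 : ℝ) / n - 1 / (m : ℝ) * ∑ k ∈ Icc 1 (X / m), (1 : ℝ) / k := by
      rw [← sum_dvd m hm1 (fun _ => (1 : ℝ)) X, ← sum_sub_distrib]
      apply sum_congr rfl
      intro n _
      rw [hw]
      simp only
      split_ifs <;> ring
    have q2 : Real.log X - Real.log m ≤ ∑ k ∈ Icc 1 (X / m), (1 : ℝ) / k := by
      have r1 := log_add_one_le_harmonic (X / m)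
      have r2 : ∑ i ∈ Icc 1 (X / m), (1 : ℝ) / i = ((harmonic (X / m) : ℚ) : ℝ) := by
        rw [harmonic_eq_sum_Icc]
        push_cast
        apply sum_congr rfl
        intro i _
        rw [one_div]
      rw [r2, ← Real.log_div hX0.ne' hm0.ne']
      refine le_trans ?_ r1
      apply Real.log_le_log (by positivity)
      rw [div_le_iff₀ hm0]
      have r3 : X < (X / m + 1) * m := by
        have := Nat.lt_div_mul_add (a := X) (b := m) (by omega)
        calc X < X / m * m + m := this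
          _ = (X / m + 1) * m := by ring
      have r4 : (X : ℝ) < ((X / m : ℕ) + 1) * m := by exact_mod_cast r3
      push_cast
      linarith
    have q3 := harm X
    have q4 : 1 / (m : ℝ) * (Real.log X - Real.log m) ≤ 1 / (m : ℝ) * ∑ k ∈ Icc 1 (X / m), (1 : ℝ) / k :=
      mul_le_mul_of_nonneg_left q2 (by positivity)
    have q5 : 1 / (m : ℝ) * Real.log m ≤ Real.log m := by
      have : 1 / (m : ℝ) ≤ 1 := by
        rw [div_le_one hm0]
        exact_mod_cast hm1
      nlinarith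
    rw [q1]
    nlinarith
  -- conclusion
  have hlog0 : 0 ≤ Real.log X := Real.log_natCast_nonneg X
  have s1 : 1 + Real.log m + 2 * (d : ℝ) ≤ 1 / (16000 * m) * Real.log X := by
    rw [one_div, inv_mul_eq_div, le_div_iff₀ (by positivity)]
    linarith
  have s2 : (1 / 2 - 57 / 2000 * (1 / (m : ℝ))) * Real.log X =
      1 / (m : ℝ) * ((3771 / 8000) * Real.log X) + 1 / 2 * ((1 - 1 / m) * Real.log X) +
        1 / (8000 * m) * Real.log X := by
    field_simp
    ring
  have s3 : 1 / (8000 * (m : ℝ)) * Real.log X = 2 * (1 / (16000 * m) * Real.log X) := by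
    field_simp
    ring
  rw [s2, s3]
  linarith

end Pool.Agent.E8helper83.FP.B
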