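import Pool.Agent.E8helper83.FP.MainU

/-!
Library E8helper83.FP (helper83): averaging the certificate over the differences `2 ^ i 3 ^ j 5 ^ l d`.
-/

set_option autoImplicit false

namespace Pool.Agent.E8helper83.FP

open Finset Filter Topology
open Pool.Agent.H376R2.MR (lam)
open Pool.Agent.TH823.MRS (lam_bdd lam_flip expo_lam)
open Pool.Agent.Y958.TC (Av)
open Pool.Agent.Y958.U (LZ ls li ls_eq li_mem li_not abel_log LZ_iff diag')

lemma lam_sgU : Sg lam := by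
  intro n
  unfold Pool.Agent.H376R2.MR.lam
  exact neg_one_pow_eq_or ℤ _

/-- sum over the differences -/
def box (K d : ℕ) (φ : ℕ → ℝ) : ℝ :=
  ∑ i ∈ range K, ∑ j ∈ range K, ∑ l ∈ range K, φ (2 ^ i * 3 ^ j * 5 ^ l * d)

lemma box_add (K d : ℕ) (φ ψ : ℕ → ℝ) : box K d (fun e => φ e + ψ e) = box K d φ + box K d ψ := by
  unfold box
  simp only [sum_add_distrib]

lemma box_le (K d : ℕ) (φ ψ : ℕ → ℝ)
    (h : ∀ i < K, ∀ j < K, ∀ l < K, φ (2 ^ i * 3 ^ j * 5 ^ l * d) ≤ ψ (2 ^ i * 3 ^ j * 5 ^ l * d)) :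
    box K d φ ≤ box K d ψ := by
  unfold box
  exact sum_le_sum fun i hi => sum_le_sum fun j hj => sum_le_sum fun l hl =>
    h i (mem_range.1 hi) j (mem_range.1 hj) l (mem_range.1 hl)

lemma box_const (K d : ℕ) (c : ℝ) : box K d (fun _ => c) = c * K ^ 3 := by
  unfold box
  simp only [sum_const, card_range, nsmul_eq_mul]
  ring

lemma box_smul (K d : ℕ) (c : ℝ) (φ : ℕ → ℝ) : box K d (fun e => c * φ e) = c * box K d φ := by
  unfold box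
  simp only [mul_sum]

lemma sq_bound (K : ℕ) (C : ℝ) (F : ℕ → ℕ → ℝ) (h : ∀ i j, F i j ≤ C) :
    ∑ i ∈ range K, ∑ j ∈ range K, F i j ≤ C * K ^ 2 := by
  refine (sum_le_sum fun i _ => sum_le_sum fun j _ => h i j).trans (le_of_eq ?_)
  simp only [sum_const, card_range, nsmul_eq_mul]
  ring

/-- multiplication of the differences by two -/
lemma box_two (K d : ℕ) (φ : ℕ → ℝ) (C : ℝ) (h : ∀ e, |φ e| ≤ C) :
    box K d (fun e => φ (2 * e) - φ e) ≤ 2 * C * K ^ 2 := by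
  unfold box
  rw [sum_comm]
  have e1 : ∀ j ∈ range K, ∑ i ∈ range K, ∑ l ∈ range K,
      (φ (2 * (2 ^ i * 3 ^ j * 5 ^ l * d)) - φ (2 ^ i * 3 ^ j * 5 ^ l * d)) =
      ∑ l ∈ range K, (φ (2 ^ K * 3 ^ j * 5 ^ l * d) - φ (2 ^ 0 * 3 ^ j * 5 ^ l * d)) := by
    intro j _
    rw [sum_comm]
    apply sum_congr rfl
    intro l _
    rw [← sum_range_sub (fun i => φ (2 ^ i * 3 ^ j * 5 ^ l * d)) K]
    apply sum_congr rfl
    intro i _
    have : 2 * (2 ^ i * 3 ^ j * 5 ^ l * d) = 2 ^ (i + 1) * 3 ^ j * 5 ^ l * d := by ring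
    rw [this]
  rw [sum_congr rfl e1]
  refine sq_bound K (2 * C) (fun j l => φ (2 ^ K * 3 ^ j * 5 ^ l * d) - φ (2 ^ 0 * 3 ^ j * 5 ^ l * d)) ?_
  intro i j
  have h1 := abs_le.1 (h (2 ^ K * 3 ^ i * 5 ^ j * d))
  have h2 := abs_le.1 (h (2 ^ 0 * 3 ^ i * 5 ^ j * d))
  linarith

/-- multiplication of the differences by three -/
lemma box_three (K d : ℕ) (φ : ℕ → ℝ) (C : ℝ) (h : ∀ e, |φ e| ≤ C) :
    box K d (fun e => φ (3 * e) - φ e) ≤ 2 * C * K ^ 2 := by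
  unfold box
  have e1 : ∀ i ∈ range K, ∑ j ∈ range K, ∑ l ∈ range K,
      (φ (3 * (2 ^ i * 3 ^ j * 5 ^ l * d)) - φ (2 ^ i * 3 ^ j * 5 ^ l * d)) =
      ∑ l ∈ range K, (φ (2 ^ i * 3 ^ K * 5 ^ l * d) - φ (2 ^ i * 3 ^ 0 * 5 ^ l * d)) := by
    intro i _
    rw [sum_comm]
    apply sum_congr rfl
    intro l _
    rw [← sum_range_sub (fun j => φ (2 ^ i * 3 ^ j * 5 ^ l * d)) K]
    apply sum_congr rfl
    intro j _
    have : 3 * (2 ^ i * 3 ^ j * 5 ^ l * d) = 2 ^ i * 3 ^ (j + 1) * 5 ^ l * d := by ring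
    rw [this]
  rw [sum_congr rfl e1]
  refine sq_bound K (2 * C) (fun i l => φ (2 ^ i * 3 ^ K * 5 ^ l * d) - φ (2 ^ i * 3 ^ 0 * 5 ^ l * d)) ?_
  intro i j
  have h1 := abs_le.1 (h (2 ^ i * 3 ^ K * 5 ^ j * d))
  have h2 := abs_le.1 (h (2 ^ i * 3 ^ 0 * 5 ^ j * d))
  linarith

/-- multiplication of the differences by five -/
lemma box_five (K d : ℕ) (φ : ℕ → ℝ) (C : ℝ) (h : ∀ e, |φ e| ≤ C) :
    box K d (fun e => φ (5 * e) - φ e) ≤ 2 * C * K ^ 2 := by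
  unfold box
  have e1 : ∀ i ∈ range K, ∀ j ∈ range K, ∑ l ∈ range K,
      (φ (5 * (2 ^ i * 3 ^ j * 5 ^ l * d)) - φ (2 ^ i * 3 ^ j * 5 ^ l * d)) =
      φ (2 ^ i * 3 ^ j * 5 ^ K * d) - φ (2 ^ i * 3 ^ j * 5 ^ 0 * d) := by
    intro i _ j _
    rw [← sum_range_sub (fun l => φ (2 ^ i * 3 ^ j * 5 ^ l * d)) K]
    apply sum_congr rfl
    intro l _
    have : 5 * (2 ^ i * 3 ^ j * 5 ^ l * d) = 2 ^ i * 3 ^ j * 5 ^ (l + 1) * d := by ring
    rw [this]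
  rw [sum_congr rfl fun i hi => sum_congr rfl (e1 i hi)]
  refine sq_bound K (2 * C) (fun i j => φ (2 ^ i * 3 ^ j * 5 ^ K * d) - φ (2 ^ i * 3 ^ j * 5 ^ 0 * d)) ?_
  intro i j
  have h1 := abs_le.1 (h (2 ^ i * 3 ^ j * 5 ^ K * d))
  have h2 := abs_le.1 (h (2 ^ i * 3 ^ j * 5 ^ 0 * d))
  linarith

/-- multiplication of the differences by four -/
lemma box_four (K d : ℕ) (φ : ℕ → ℝ) (C : ℝ) (h : ∀ e, |φ e| ≤ C) :
    box K d (fun e => φ (4 * e) - φ e) ≤ 4 * C * K ^ 2 := by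
  have h1 := box_two K d (fun e => φ (2 * e)) C (fun e => h _)
  have h2 := box_two K d φ C h
  have h3 : (fun e => φ (4 * e) - φ e) = fun e => (φ (2 * (2 * e)) - φ (2 * e)) + (φ (2 * e) - φ e) := by
    funext e
    have : 4 * e = 2 * (2 * e) := by ring
    rw [this]
    ring
  rw [h3, box_add]
  linarith

/-- multiplication of the differences by six -/
lemma box_six (K d : ℕ) (φ : ℕ → ℝ) (C : ℝ) (h : ∀ e, |φ e| ≤ C) :
    box K d (fun e => φ (6 * e) - φ e) ≤ 4 * C * K ^ 2 := by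
  have h1 := box_two K d (fun e => φ (3 * e)) C (fun e => h _)
  have h2 := box_three K d φ C h
  have h3 : (fun e => φ (6 * e) - φ e) = fun e => (φ (3 * (2 * e)) - φ (3 * e)) + (φ (3 * e) - φ e) := by
    funext e
    have : 6 * e = 3 * (2 * e) := by ring
    rw [this]
    ring
  rw [h3, box_add]
  linarith

/-- shifts, natural sums -/
lemma shift_nat (F : ℕ → ℝ) (C : ℝ) (hF : ∀ n, |F n| ≤ C) (d N : ℕ) :
    |∑ n ∈ Icc 1 N, (F n - F (n + d))| ≤ 2 * C * d := by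
  induction d with
  | zero => simp
  | succ d ih =>
    have h1 : ∀ N : ℕ, ∑ n ∈ Icc 1 N, (F (n + d) - F (n + 1 + d)) = F (1 + d) - F (N + 1 + d) := by
      intro N
      induction N with
      | zero => simp
      | succ N ih2 =>
        rw [sum_Icc_succ_top (by omega), ih2]
        ring
    have h2 : ∑ n ∈ Icc 1 N, (F n - F (n + (d + 1))) =
        ∑ n ∈ Icc 1 N, (F n - F (n + d)) + ∑ n ∈ Icc 1 N, (F (n + d) - F (n + 1 + d)) := by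
      rw [← sum_add_distrib]
      apply sum_congr rfl
      intro n _
      have : n + (d + 1) = n + 1 + d := by ring
      rw [this]
      ring
    rw [h2, h1]
    refine (abs_add_le _ _).trans ?_
    have h3 := abs_sub (F (1 + d)) (F (N + 1 + d))
    have h4 := hF (1 + d)
    have h5 := hF (N + 1 + d)
    push_cast
    linarith

/-- the inequality for the sums over `n` and over the differences, given small pair sums -/
theorem box_bound {s T : ℤ} {al : ℕ → ℤ} {G B2 B3 B4 B5 B6 : ℕ} (hc : Cert s T al G B2 B3 B4 B5 B6)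
    (K d : ℕ) (hK : 10 ^ 6 ≤ K) (N : ℕ)
    (hpair : ∀ i < K, ∀ j < K, ∀ l < K, ∀ r < 18,
      |∑ n ∈ Icc 1 N, ((lam n : ℤ) : ℝ) * (lam (n + (r + 1) * (2 ^ i * 3 ^ j * 5 ^ l * d)) : ℤ)| ≤
        1 / 10 ^ 7 * N)
    (hN : ∀ i < K, ∀ j < K, ∀ l < K, (2 * 65535 : ℝ) * (2 ^ i * 3 ^ j * 5 ^ l * d : ℕ) ≤ 1 / 100 * N) :
    8000 * (s * box K d (fun e => ∑ n ∈ Icc 1 N, (P4 lam e n : ℝ))) ≤ (T + 1) * N * K ^ 3 := by
  set W : ℕ → ℕ → List ℕ → ℕ → ℝ := fun k B l e =>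
    ∑ n ∈ Icc 1 N, (tw lam B l n e : ℝ) with hW
  have hWb : ∀ k B l e, |W k B l e| ≤ 65535 * N := by
    intro k B l e
    rw [hW]
    refine (abs_sum_le_sum_abs _ _).trans ((sum_le_sum fun n _ => tw_abs lam B l n e).trans (le_of_eq ?_))
    simp only [sum_const, Nat.card_Icc, nsmul_eq_mul, add_tsub_cancel_right]
    ring
  have h1 : ∀ i < K, ∀ j < K, ∀ l < K, (fun e => 8000 * (s * ∑ n ∈ Icc 1 N, (P4 lam e n : ℝ))) (2 ^ i * 3 ^ j * 5 ^ l * d) ≤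
      (fun e => ((T : ℝ) + 4 / 100) * N +
        ((W 2 B2 [1, 2, 3, 4, 5, 6, 7, 8, 9] (2 * e) - W 2 B2 [1, 2, 3, 4, 5, 6, 7, 8, 9] e) +
        ((W 3 B3 [1, 2, 3, 4, 5, 6] (3 * e) - W 3 B3 [1, 2, 3, 4, 5, 6] e) +
        ((W 4 B4 [1, 2, 3, 4] (4 * e) - W 4 B4 [1, 2, 3, 4] e) +
        ((W 5 B5 [1, 2, 3] (5 * e) - W 5 B5 [1, 2, 3] e) +
        (W 6 B6 [1, 2, 3] (6 * e) - W 6 B6 [1, 2, 3] e)))))) (2 ^ i * 3 ^ j * 5 ^ l * d) := by
    intro i hi j hj l hl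
    set e : ℕ := 2 ^ i * 3 ^ j * 5 ^ l * d with he
    simp only
    have hp : ∀ n ∈ Icc 1 N, (8000 : ℝ) * (s * (P4 lam e n : ℝ)) ≤ T +
        ∑ r ∈ range 18, (al r : ℝ) * (((lam n : ℤ) : ℝ) * (lam (n + (r + 1) * e) : ℤ)) +
      ((tw lam G [1, 2, 3, 4, 5, 6, 7, 8, 9, 10, 11, 12, 13, 14, 15, 16, 17] n e : ℝ) -
        tw lam G [1, 2, 3, 4, 5, 6, 7, 8, 9, 10, 11, 12, 13, 14, 15, 16, 17] (n + e) e) +
      ((tw lam B2 [1, 2, 3, 4, 5, 6, 7, 8, 9] n (2 * e) : ℝ) - tw lam B2 [1, 2, 3, 4, 5, 6, 7, 8, 9] n e) +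
      ((tw lam B3 [1, 2, 3, 4, 5, 6] n (3 * e) : ℝ) - tw lam B3 [1, 2, 3, 4, 5, 6] n e) +
      ((tw lam B4 [1, 2, 3, 4] n (4 * e) : ℝ) - tw lam B4 [1, 2, 3, 4] n e) +
      ((tw lam B5 [1, 2, 3] n (5 * e) : ℝ) - tw lam B5 [1, 2, 3] n e) +
      ((tw lam B6 [1, 2, 3] n (6 * e) : ℝ) - tw lam B6 [1, 2, 3] n e) := by
      intro n _
      have := pointU lam_sgU hc n e
      exact_mod_cast this
    have hs := sum_le_sum hp
    rw [← mul_sum, ← mul_sum] at hs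
    refine hs.trans ?_
    simp only [sum_add_distrib, sum_sub_distrib]
    have k1 : ∑ n ∈ Icc 1 N, (T : ℝ) = T * N := by
      simp only [sum_const, Nat.card_Icc, nsmul_eq_mul, add_tsub_cancel_right]
      ring
    have k2 : ∑ n ∈ Icc 1 N, ∑ r ∈ range 18, (al r : ℝ) * (((lam n : ℤ) : ℝ) * (lam (n + (r + 1) * e) : ℤ)) ≤
        3 / 100 * N := by
      rw [sum_comm]
      have k3 : ∀ r ∈ range 18, ∑ n ∈ Icc 1 N, (al r : ℝ) * (((lam n : ℤ) : ℝ) * (lam (n + (r + 1) * e) : ℤ)) ≤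
          8000 * (1 / 10 ^ 7 * N) := by
        intro r hr
        rw [← mul_sum]
        have h2 := hpair i hi j hj l hl r (mem_range.1 hr)
        have h3 : |(al r : ℝ)| ≤ 8000 := by exact_mod_cast hc.a r
        calc (al r : ℝ) * ∑ n ∈ Icc 1 N, ((lam n : ℤ) : ℝ) * (lam (n + (r + 1) * e) : ℤ) ≤
            |(al r : ℝ) * ∑ n ∈ Icc 1 N, ((lam n : ℤ) : ℝ) * (lam (n + (r + 1) * e) : ℤ)| := le_abs_self _
          _ = |(al r : ℝ)| * |∑ n ∈ Icc 1 N, ((lam n : ℤ) : ℝ) * (lam (n + (r + 1) * e) : ℤ)| := abs_mul _ _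
          _ ≤ 8000 * (1 / 10 ^ 7 * N) := mul_le_mul h3 h2 (abs_nonneg _) (by norm_num)
      refine (sum_le_sum k3).trans ?_
      rw [sum_const, card_range, nsmul_eq_mul]
      have hN0 : (0 : ℝ) ≤ N := Nat.cast_nonneg N
      push_cast
      nlinarith
    have k4 := (abs_le.1 (shift_nat (fun n => (tw lam G [1, 2, 3, 4, 5, 6, 7, 8, 9, 10, 11, 12, 13, 14, 15, 16, 17] n e : ℝ))
      65535 (fun n => tw_abs _ _ _ _ _) e N)).2
    rw [sum_sub_distrib] at k4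
    have k5 := hN i hi j hj l hl
    rw [← he] at k5
    rw [k1]
    rw [hW]
    simp only
    linarith
  have h2 := box_le K d (fun e => 8000 * (s * ∑ n ∈ Icc 1 N, (P4 lam e n : ℝ)))
      (fun e => ((T : ℝ) + 4 / 100) * N +
        ((W 2 B2 [1, 2, 3, 4, 5, 6, 7, 8, 9] (2 * e) - W 2 B2 [1, 2, 3, 4, 5, 6, 7, 8, 9] e) +
        ((W 3 B3 [1, 2, 3, 4, 5, 6] (3 * e) - W 3 B3 [1, 2, 3, 4, 5, 6] e) +
        ((W 4 B4 [1, 2, 3, 4] (4 * e) - W 4 B4 [1, 2, 3, 4] e) +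
        ((W 5 B5 [1, 2, 3] (5 * e) - W 5 B5 [1, 2, 3] e) +
        (W 6 B6 [1, 2, 3] (6 * e) - W 6 B6 [1, 2, 3] e)))))) h1
  rw [box_smul, box_smul] at h2
  refine h2.trans ?_
  rw [box_add, box_add, box_add, box_add, box_add, box_const]
  have b2 := box_two K d (W 2 B2 [1, 2, 3, 4, 5, 6, 7, 8, 9]) _ (hWb 2 B2 _)
  have b3 := box_three K d (W 3 B3 [1, 2, 3, 4, 5, 6]) _ (hWb 3 B3 _)
  have b4 := box_four K d (W 4 B4 [1, 2, 3, 4]) _ (hWb 4 B4 _)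
  have b5 := box_five K d (W 5 B5 [1, 2, 3]) _ (hWb 5 B5 _)
  have b6 := box_six K d (W 6 B6 [1, 2, 3]) _ (hWb 6 B6 _)
  have hKr : (10 : ℝ) ^ 6 ≤ K := by exact_mod_cast hK
  have hN0 : (0 : ℝ) ≤ N := Nat.cast_nonneg N
  have hNK : (0 : ℝ) ≤ N * (K : ℝ) ^ 2 := by positivity
  have h7 : (14 * 65535 : ℝ) * (N * (K : ℝ) ^ 2) ≤ 96 / 100 * (N * (K : ℝ) ^ 3) := by
    have : (N : ℝ) * (K : ℝ) ^ 3 = K * (N * (K : ℝ) ^ 2) := by ring
    rw [this]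
    nlinarith
  nlinarith

end Pool.Agent.E8helper83.FP
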