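import Pool.Agent.E8helper83.FP.Go

/-!
Library E8helper83.FP (helper83): tables, indices and the inequality at a window.
-/

set_option autoImplicit false

namespace Pool.Agent.E8helper83.FP

open Finset

/-- the inequality at a window -/
def leafA (R1 R2 S2 S3 lhs x y u v p : ℕ) : Bool :=
  Nat.ble (Nat.add lhs (Nat.land (Nat.shiftRight R2 y) 65535))
    (Nat.add p (Nat.add (Nat.land (Nat.shiftRight R1 x) 65535)
      (Nat.add (Nat.mul 2 (Nat.land (Nat.shiftRight S2 u) 65535))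
        (Nat.mul 3 (Nat.land (Nat.shiftRight S3 v) 65535)))))

/-- mask -/
def mk (w : ℕ) : ℕ := Nat.sub (Nat.pow 2 w) 1

/-- the number with the binary digits `b j`, `j` in the list -/
def idx (b : ℕ → Bool) : List ℕ → ℕ
  | [] => 0
  | j :: l => (b j).toNat * 2 ^ l.length + idx b l

lemma tb_eq (T s : ℕ) : tb T s = T / 2 ^ s % 2 ^ 16 := by
  unfold tb
  have h1 : Nat.shiftRight T s = T / 2 ^ s := Nat.shiftRight_eq_div_pow T s
  rw [h1]
  have h2 := Nat.and_two_pow_sub_one_eq_mod (T / 2 ^ s) 16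
  norm_num at h2 ⊢
  exact h2

lemma tb_le (T s : ℕ) : tb T s ≤ 65535 := by
  rw [tb_eq]
  have := Nat.mod_lt (T / 2 ^ s) (show 0 < 2 ^ 16 by norm_num)
  norm_num at this ⊢
  omega

/-- entries of a row of a table -/
lemma tb_row (T X W s m : ℕ) (hm : m = mk W) (h : s + 16 ≤ W) :
    tb (Nat.land (Nat.shiftRight T X) m) s = tb T (X + s) := by
  rw [tb_eq, tb_eq]
  have h1 : Nat.shiftRight T X = T / 2 ^ X := Nat.shiftRight_eq_div_pow T X
  have h2 : Nat.land (T / 2 ^ X) (2 ^ W - 1) = (T / 2 ^ X) % 2 ^ W := Nat.and_two_pow_sub_one_eq_mod _ _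
  have h3 : mk W = 2 ^ W - 1 := rfl
  rw [h1, hm, h3, h2]
  obtain ⟨r, rfl⟩ : ∃ r, W = s + r := ⟨W - s, by omega⟩
  rw [pow_add 2 s r, Nat.mod_mul_right_div_self, Nat.mod_mod_of_dvd, Nat.div_div_eq_div_mul, ← pow_add]
  exact pow_dvd_pow 2 (by omega)

lemma leafA_iff (R1 R2 S2 S3 lhs x y u v p : ℕ) : leafA R1 R2 S2 S3 lhs x y u v p = true ↔
    lhs + tb R2 y ≤ p + (tb R1 x + (2 * tb S2 u + 3 * tb S3 v)) := by
  unfold leafA
  rw [Nat.ble_eq]
  rfl

lemma idx_le (b : ℕ → Bool) (l : List ℕ) : idx b l + 1 ≤ 2 ^ l.length := by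
  induction l with
  | nil => simp [idx]
  | cons j l ih =>
    simp only [idx, List.length_cons, pow_succ]
    have : (b j).toNat ≤ 1 := Bool.toNat_le _
    nlinarith [Nat.pos_of_ne_zero (pow_ne_zero l.length (two_ne_zero (α := ℕ)))]

lemma hnot (c : Bool) : (!c).toNat = 1 - c.toNat := by cases c <;> rfl

end Pool.Agent.E8helper83.FP
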