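import Pool.Agent.E8helper83.FP.Base

/-!
Library E8helper83.FP (helper83): the bits of a window of a sequence of signs.
-/

set_option autoImplicit false

namespace Pool.Agent.E8helper83.FP

open Finset

/-- sign sequences -/
def Sg (x : ℕ → ℤ) : Prop := ∀ n, x n = 1 ∨ x n = -1

/-- bit `j` of the window at `n` with step `d` -/
def bt (x : ℕ → ℤ) (n d j : ℕ) : Bool := decide (x (n + j * d) ≠ x n)

lemma sg_mul {x : ℕ → ℤ} (hx : Sg x) (n m : ℕ) :
    x n * x m = 1 - 2 * ((decide (x m ≠ x n)).toNat : ℤ) := by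
  rcases hx n with h1 | h1 <;> rcases hx m with h2 | h2 <;> rw [h1, h2] <;> decide

lemma bt_mul {x : ℕ → ℤ} (hx : Sg x) (n d j : ℕ) :
    x n * x (n + j * d) = 1 - 2 * ((bt x n d j).toNat : ℤ) := sg_mul hx n _

lemma bt_shift {x : ℕ → ℤ} (hx : Sg x) (n d j : ℕ) :
    bt x (n + d) d j = xor (bt x n d (j + 1)) (bt x n d 1) := by
  unfold bt
  have e1 : n + d + j * d = n + (j + 1) * d := by ring
  have e2 : n + 1 * d = n + d := by ring
  rw [e1, e2]
  rcases hx n with h1 | h1 <;> rcases hx (n + d) with h2 | h2 <;>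
    rcases hx (n + (j + 1) * d) with h3 | h3 <;> rw [h1, h2, h3] <;> decide

lemma bt_step (x : ℕ → ℤ) (n d k j : ℕ) : bt x n (k * d) j = bt x n d (k * j) := by
  unfold bt
  have e : j * (k * d) = k * j * d := by ring
  rw [e]

lemma bt_p4 {x : ℕ → ℤ} (hx : Sg x) (n d : ℕ) :
    x n * x (n + d) * x (n + 2 * d) * x (n + 3 * d) =
      if xor (bt x n d 1) (xor (bt x n d 2) (bt x n d 3)) then -1 else 1 := by
  unfold bt
  have e2 : n + 1 * d = n + d := by ring
  rw [e2]
  rcases hx n with h1 | h1 <;> rcases hx (n + d) with h2 | h2 <;>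
    rcases hx (n + 2 * d) with h3 | h3 <;> rcases hx (n + 3 * d) with h4 | h4 <;>
    rw [h1, h2, h3, h4] <;> decide

lemma bt_dil {x : ℕ → ℤ} (p : ℕ) (hm : ∀ m, 1 ≤ m → x (p * m) = - x m) (m d j : ℕ) (h : 1 ≤ m) :
    bt x (p * m) d (p * j) = bt x m d j := by
  unfold bt
  have e : p * m + p * j * d = p * (m + j * d) := by ring
  rw [e, hm _ h, hm _ (by omega)]
  simp only [ne_eq, neg_inj]

lemma idx_congr (b c : ℕ → Bool) (l : List ℕ) (h : ∀ j ∈ l, b j = c j) : idx b l = idx c l := by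
  induction l with
  | nil => rfl
  | cons j l ih =>
    simp only [idx]
    rw [h j (List.mem_cons_self), ih fun i hi => h i (List.mem_cons_of_mem _ hi)]

lemma idx_map (b : ℕ → Bool) (g : ℕ → ℕ) (l : List ℕ) : idx b (l.map g) = idx (fun j => b (g j)) l := by
  induction l with
  | nil => rfl
  | cons j l ih =>
    simp only [idx, List.map_cons, List.length_map]
    rw [ih]

end Pool.Agent.E8helper83.FP
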