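import Pool.Agent.E8helper83.FP.GoB
import Pool.Agent.E8helper83.FP.DataB0
import Pool.Agent.E8helper83.FP.DataB1

/-!
Library E8helper83.FP (helper83): the kernel check of the certificate for the four-term sums (windows of
19 terms), residue class 0 modulo 6.
-/

set_option autoImplicit false

namespace Pool.Agent.E8helper83.FP.B

open Finset

/-- increments -/
def la00 : List Lv :=
  [⟨131072, 0, 262144, 2048, 0, 508, 0⟩,
   ⟨65536, 0, 131072, 0, 0, 0, 20⟩,
   ⟨32768, 0, 65536, 1024, 256, 280, 0⟩,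
   ⟨16384, 0, 32768, 0, 0, 56, 0⟩,
   ⟨8192, 0, 16384, 512, 0, 2344, 0⟩,
   ⟨4096, 0, 8192, 0, 128, 0, 4⟩]

/-- increments -/
def lb00 : List Lv :=
  [⟨2048, 0, 4096, 256, 0, 14, 0⟩,
   ⟨1024, 0, 2048, 0, 0, 56, 0⟩,
   ⟨512, 0, 1024, 128, 64, 962, 0⟩,
   ⟨256, 0, 512, 0, 0, 6, 0⟩,
   ⟨128, 0, 256, 64, 0, 0, 78⟩,
   ⟨64, 0, 128, 0, 32, 0, 8⟩,
   ⟨32, 0, 64, 32, 0, 1556, 0⟩,
   ⟨16, 0, 32, 0, 0, 14, 0⟩,
   ⟨0, 0, 16, 16, 16, 0, 12⟩]

/-- increments -/
def la01 : List Lv :=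
  [⟨131072, 262144, 0, 2048, 0, 508, 0⟩,
   ⟨65536, 131072, 0, 0, 0, 0, 20⟩,
   ⟨32768, 65536, 0, 1024, 256, 280, 0⟩,
   ⟨16384, 32768, 0, 0, 0, 56, 0⟩,
   ⟨8192, 16384, 0, 512, 0, 2344, 0⟩,
   ⟨4096, 8192, 0, 0, 128, 0, 4⟩]

/-- increments -/
def lb01 : List Lv :=
  [⟨2048, 4096, 0, 256, 0, 14, 0⟩,
   ⟨1024, 2048, 0, 0, 0, 56, 0⟩,
   ⟨512, 1024, 0, 128, 64, 962, 0⟩,
   ⟨256, 512, 0, 0, 0, 6, 0⟩,
   ⟨128, 256, 0, 64, 0, 0, 78⟩,
   ⟨64, 128, 0, 0, 32, 0, 8⟩,
   ⟨32, 64, 0, 32, 0, 1556, 0⟩,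
   ⟨16, 32, 0, 0, 0, 14, 0⟩,
   ⟨0, 16, 0, 16, 16, 0, 12⟩]

lemma thla00 : Th1 false la00 := by
  constructor <;> intro b <;>
    simp [la00, sa, sb, sc, sd, idx, hnot] <;> omega

lemma thlb00 : Th2 false lb00 := by
  constructor <;> intro b <;>
    simp [lb00, sa, sb, sc, sd, idx, hnot] <;> omega

lemma thla01 : Th1 true la01 := by
  constructor <;> intro b <;>
    simp [la01, sa, sb, sc, sd, idx, hnot] <;> omega

lemma thlb01 : Th2 true lb01 := by
  constructor <;> intro b <;>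
    simp [lb01, sa, sb, sc, sd, idx, hnot] <;> omega

theorem chk00 : chk 16000 G0 G1 P0 Q0 P0 Q0 la00 lb00 0 0 0 0 595 = true := by
  decide +kernel

theorem chk01 : chk 0 G0 G1 P0 Q0 P0 Q0 la00 lb00 262144 524288 0 512 395 = true := by
  decide +kernel

theorem chk02 : chk 0 G0 G1 P0 Q0 P0 Q0 la00 lb00 524288 1048576 4096 0 341 = true := by
  decide +kernel

theorem chk03 : chk 16000 G0 G1 P0 Q0 P0 Q0 la00 lb00 786432 1572864 4096 512 141 = true := by
  decide +kernel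

theorem chk04 : chk 0 G0 G1 P0 Q0 P0 Q0 la01 lb01 1048576 1572864 0 0 165 = true := by
  decide +kernel

theorem chk05 : chk 16035 G0 G1 P0 Q0 P0 Q0 la01 lb01 1310720 1048576 0 512 0 = true := by
  decide +kernel

theorem chk06 : chk 16089 G0 G1 P0 Q0 P0 Q0 la01 lb01 1572864 524288 4096 0 0 = true := by
  decide +kernel

theorem chk07 : chk 289 G0 G1 P0 Q0 P0 Q0 la01 lb01 1835008 0 4096 512 0 = true := by
  decide +kernel

/-- the coefficients of the pair terms -/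
def al0 (j : ℕ) : ℤ := ([215, 127, 100, 254, -10, 140, 28, 1172, -2, 7, 28, 481, 3, -39, -4, 778, 7, -6] : List ℤ).getD j 0

theorem cert0 (b : ℕ → Bool) : 8000 * (if xor (b 1) (xor (b 2) (b 3)) then -1 else 1 : ℤ) ≤
    3770 + ∑ j ∈ range 18, al0 j * (1 - 2 * ((b (j + 1)).toNat : ℤ)) +
      ((tb G0 (16 * idx b [1, 2, 3, 4, 5, 6, 7, 8, 9, 10, 11, 12, 13, 14, 15, 16, 17]) : ℤ) -
        tb G1 (16 * idx (fun j => xor (b (j + 1)) (b 1)) [1, 2, 3, 4, 5, 6, 7, 8, 9, 10, 11, 12, 13, 14, 15, 16, 17])) +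
      (2 * ((tb P0 (16 * idx b [2, 4, 6, 8, 10, 12, 14, 16, 18]) : ℤ) - 4872) - ((tb P0 (16 * idx b [1, 2, 3, 4, 5, 6, 7, 8, 9]) : ℤ) - 4872)) +
      (3 * ((tb Q0 (16 * idx b [3, 6, 9, 12, 15, 18]) : ℤ) - 1893) - ((tb Q0 (16 * idx b [1, 2, 3, 4, 5, 6]) : ℤ) - 1893)) := by
  have hn : ∀ c : Bool, (!c).toNat = 1 - c.toNat := by decide
  have hc : ∀ c : Bool, c.toNat ≤ 1 := by decide
  have a4 := hc (b 4)
  have a5 := hc (b 5)
  have a6 := hc (b 6)
  have a7 := hc (b 7)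
  have a8 := hc (b 8)
  have a9 := hc (b 9)
  have a10 := hc (b 10)
  have a11 := hc (b 11)
  have a12 := hc (b 12)
  have a13 := hc (b 13)
  have a14 := hc (b 14)
  have a15 := hc (b 15)
  have a16 := hc (b 16)
  have a17 := hc (b 17)
  have a18 := hc (b 18)
  have key : ∀ c p : ℕ, ∀ l1 l2 : List Lv,
      c + lh G1 P0 Q0 b ≤ p + sp l1 (fun j => b (j + 4)) + sp l2 (fun j => b (j + 10)) + rh G0 P0 Q0 b →
      ((p + sp l1 (fun j => b (j + 4)) + sp l2 (fun j => b (j + 10)) : ℕ) : ℤ) - c =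
        3770 + -8658 + ∑ j ∈ range 18, al0 j * (1 - 2 * ((b (j + 1)).toNat : ℤ)) -
          8000 * (if xor (b 1) (xor (b 2) (b 3)) then -1 else 1 : ℤ) →
      8000 * (if xor (b 1) (xor (b 2) (b 3)) then -1 else 1 : ℤ) ≤
    3770 + ∑ j ∈ range 18, al0 j * (1 - 2 * ((b (j + 1)).toNat : ℤ)) +
      ((tb G0 (16 * idx b [1, 2, 3, 4, 5, 6, 7, 8, 9, 10, 11, 12, 13, 14, 15, 16, 17]) : ℤ) -
        tb G1 (16 * idx (fun j => xor (b (j + 1)) (b 1)) [1, 2, 3, 4, 5, 6, 7, 8, 9, 10, 11, 12, 13, 14, 15, 16, 17])) +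
      (2 * ((tb P0 (16 * idx b [2, 4, 6, 8, 10, 12, 14, 16, 18]) : ℤ) - 4872) - ((tb P0 (16 * idx b [1, 2, 3, 4, 5, 6, 7, 8, 9]) : ℤ) - 4872)) +
      (3 * ((tb Q0 (16 * idx b [3, 6, 9, 12, 15, 18]) : ℤ) - 1893) - ((tb Q0 (16 * idx b [1, 2, 3, 4, 5, 6]) : ℤ) - 1893)) := by
    intro c p l1 l2 h1 h2
    have h3 := Int.ofNat_le.2 h1
    unfold lh rh at h3
    push_cast at h2 h3
    linarith
  cases b1 : b 1 <;> cases b2 : b 2 <;> cases b3 : b 3
  · have h := chk_sound _ _ _ _ _ _ _ _ _ _ _ _ _ _ false false false thla00 thlb00 rfl rfl rfl rfl chk00 b b1 b2 b3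
    rw [b1, b2, b3] at key
    refine key _ _ _ _ h ?_
    simp only [sum_range_succ, range_zero, sum_empty, al0, List.getD_cons_zero, List.getD_cons_succ, b1, b2, b3,
      la00, lb00, sp, hn, Bool.toNat_false, Bool.toNat_true, Bool.xor_false, Bool.xor_true, Bool.not_true, Bool.not_false]
    push_cast
    norm_num
    omega
  · have h := chk_sound _ _ _ _ _ _ _ _ _ _ _ _ _ _ false false true thla00 thlb00 rfl rfl rfl rfl chk01 b b1 b2 b3
    rw [b1, b2, b3] at key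
    refine key _ _ _ _ h ?_
    simp only [sum_range_succ, range_zero, sum_empty, al0, List.getD_cons_zero, List.getD_cons_succ, b1, b2, b3,
      la00, lb00, sp, hn, Bool.toNat_false, Bool.toNat_true, Bool.xor_false, Bool.xor_true, Bool.not_true, Bool.not_false]
    push_cast
    norm_num
    omega
  · have h := chk_sound _ _ _ _ _ _ _ _ _ _ _ _ _ _ false true false thla00 thlb00 rfl rfl rfl rfl chk02 b b1 b2 b3
    rw [b1, b2, b3] at key
    refine key _ _ _ _ h ?_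
    simp only [sum_range_succ, range_zero, sum_empty, al0, List.getD_cons_zero, List.getD_cons_succ, b1, b2, b3,
      la00, lb00, sp, hn, Bool.toNat_false, Bool.toNat_true, Bool.xor_false, Bool.xor_true, Bool.not_true, Bool.not_false]
    push_cast
    norm_num
    omega
  · have h := chk_sound _ _ _ _ _ _ _ _ _ _ _ _ _ _ false true true thla00 thlb00 rfl rfl rfl rfl chk03 b b1 b2 b3
    rw [b1, b2, b3] at key
    refine key _ _ _ _ h ?_
    simp only [sum_range_succ, range_zero, sum_empty, al0, List.getD_cons_zero, List.getD_cons_succ, b1, b2, b3,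
      la00, lb00, sp, hn, Bool.toNat_false, Bool.toNat_true, Bool.xor_false, Bool.xor_true, Bool.not_true, Bool.not_false]
    push_cast
    norm_num
    omega
  · have h := chk_sound _ _ _ _ _ _ _ _ _ _ _ _ _ _ true false false thla01 thlb01 rfl rfl rfl rfl chk04 b b1 b2 b3
    rw [b1, b2, b3] at key
    refine key _ _ _ _ h ?_
    simp only [sum_range_succ, range_zero, sum_empty, al0, List.getD_cons_zero, List.getD_cons_succ, b1, b2, b3,
      la01, lb01, sp, hn, Bool.toNat_false, Bool.toNat_true, Bool.xor_false, Bool.xor_true, Bool.not_true, Bool.not_false]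
    push_cast
    norm_num
    omega
  · have h := chk_sound _ _ _ _ _ _ _ _ _ _ _ _ _ _ true false true thla01 thlb01 rfl rfl rfl rfl chk05 b b1 b2 b3
    rw [b1, b2, b3] at key
    refine key _ _ _ _ h ?_
    simp only [sum_range_succ, range_zero, sum_empty, al0, List.getD_cons_zero, List.getD_cons_succ, b1, b2, b3,
      la01, lb01, sp, hn, Bool.toNat_false, Bool.toNat_true, Bool.xor_false, Bool.xor_true, Bool.not_true, Bool.not_false]
    push_cast
    norm_num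
    omega
  · have h := chk_sound _ _ _ _ _ _ _ _ _ _ _ _ _ _ true true false thla01 thlb01 rfl rfl rfl rfl chk06 b b1 b2 b3
    rw [b1, b2, b3] at key
    refine key _ _ _ _ h ?_
    simp only [sum_range_succ, range_zero, sum_empty, al0, List.getD_cons_zero, List.getD_cons_succ, b1, b2, b3,
      la01, lb01, sp, hn, Bool.toNat_false, Bool.toNat_true, Bool.xor_false, Bool.xor_true, Bool.not_true, Bool.not_false]
    push_cast
    norm_num
    omega
  · have h := chk_sound _ _ _ _ _ _ _ _ _ _ _ _ _ _ true true true thla01 thlb01 rfl rfl rfl rfl chk07 b b1 b2 b3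
    rw [b1, b2, b3] at key
    refine key _ _ _ _ h ?_
    simp only [sum_range_succ, range_zero, sum_empty, al0, List.getD_cons_zero, List.getD_cons_succ, b1, b2, b3,
      la01, lb01, sp, hn, Bool.toNat_false, Bool.toNat_true, Bool.xor_false, Bool.xor_true, Bool.not_true, Bool.not_false]
    push_cast
    norm_num
    omega

end Pool.Agent.E8helper83.FP.B
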