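import Pool.Agent.E8helper83.FP.GoB
import Pool.Agent.E8helper83.FP.DataB0
import Pool.Agent.E8helper83.FP.DataB2
import Pool.Agent.E8helper83.FP.DataB3

/-!
Library E8helper83.FP (helper83): the kernel check of the certificate for the four-term sums (windows of
19 terms), residue class 2 modulo 6.
-/

set_option autoImplicit false

namespace Pool.Agent.E8helper83.FP.B

open Finset

/-- increments -/
def la20 : List Lv :=
  [⟨131072, 0, 262144, 2048, 0, 384, 0⟩,
   ⟨65536, 0, 131072, 0, 0, 0, 90⟩,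
   ⟨32768, 0, 65536, 1024, 256, 0, 68⟩,
   ⟨16384, 0, 32768, 0, 0, 0, 190⟩,
   ⟨8192, 0, 16384, 512, 0, 4352, 0⟩,
   ⟨4096, 0, 8192, 0, 128, 30, 0⟩]

/-- increments -/
def lb20 : List Lv :=
  [⟨2048, 0, 4096, 256, 0, 6, 0⟩,
   ⟨1024, 0, 2048, 0, 0, 40, 0⟩,
   ⟨512, 0, 1024, 128, 64, 176, 0⟩,
   ⟨256, 0, 512, 0, 0, 0, 70⟩,
   ⟨128, 0, 256, 64, 0, 138, 0⟩,
   ⟨64, 0, 128, 0, 32, 36, 0⟩,
   ⟨32, 0, 64, 32, 0, 2224, 0⟩,
   ⟨16, 0, 32, 0, 0, 2, 0⟩,
   ⟨0, 0, 16, 16, 16, 2, 0⟩]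

/-- increments -/
def la21 : List Lv :=
  [⟨131072, 262144, 0, 2048, 0, 384, 0⟩,
   ⟨65536, 131072, 0, 0, 0, 0, 90⟩,
   ⟨32768, 65536, 0, 1024, 256, 0, 68⟩,
   ⟨16384, 32768, 0, 0, 0, 0, 190⟩,
   ⟨8192, 16384, 0, 512, 0, 4352, 0⟩,
   ⟨4096, 8192, 0, 0, 128, 30, 0⟩]

/-- increments -/
def lb21 : List Lv :=
  [⟨2048, 4096, 0, 256, 0, 6, 0⟩,
   ⟨1024, 2048, 0, 0, 0, 40, 0⟩,
   ⟨512, 1024, 0, 128, 64, 176, 0⟩,
   ⟨256, 512, 0, 0, 0, 0, 70⟩,
   ⟨128, 256, 0, 64, 0, 138, 0⟩,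
   ⟨64, 128, 0, 0, 32, 36, 0⟩,
   ⟨32, 64, 0, 32, 0, 2224, 0⟩,
   ⟨16, 32, 0, 0, 0, 2, 0⟩,
   ⟨0, 16, 0, 16, 16, 2, 0⟩]

lemma thla20 : Th1 false la20 := by
  constructor <;> intro b <;>
    simp [la20, sa, sb, sc, sd, idx, hnot] <;> omega

lemma thlb20 : Th2 false lb20 := by
  constructor <;> intro b <;>
    simp [lb20, sa, sb, sc, sd, idx, hnot] <;> omega

lemma thla21 : Th1 true la21 := by
  constructor <;> intro b <;>
    simp [la21, sa, sb, sc, sd, idx, hnot] <;> omega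

lemma thlb21 : Th2 true lb21 := by
  constructor <;> intro b <;>
    simp [lb21, sa, sb, sc, sd, idx, hnot] <;> omega

theorem chk20 : chk 16000 G2 G3 P1 0 P2 Q0 la20 lb20 0 0 0 0 5252 = true := by
  decide +kernel

theorem chk21 : chk 0 G2 G3 P1 0 P2 Q0 la20 lb20 262144 524288 0 512 5218 = true := by
  decide +kernel

theorem chk22 : chk 0 G2 G3 P1 0 P2 Q0 la20 lb20 524288 1048576 4096 0 4588 = true := by
  decide +kernel

theorem chk23 : chk 16000 G2 G3 P1 0 P2 Q0 la20 lb20 786432 1572864 4096 512 4554 = true := by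
  decide +kernel

theorem chk24 : chk 0 G2 G3 P1 0 P2 Q0 la21 lb21 1048576 1572864 0 0 5220 = true := by
  decide +kernel

theorem chk25 : chk 16000 G2 G3 P1 0 P2 Q0 la21 lb21 1310720 1048576 0 512 5186 = true := by
  decide +kernel

theorem chk26 : chk 16000 G2 G3 P1 0 P2 Q0 la21 lb21 1572864 524288 4096 0 4556 = true := by
  decide +kernel

theorem chk27 : chk 0 G2 G3 P1 0 P2 Q0 la21 lb21 1835008 0 4096 512 4522 = true := by
  decide +kernel

/-- the coefficients of the pair terms -/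
def al2 (j : ℕ) : ℤ := ([16, 332, 17, 192, -45, -34, -95, 2176, 15, 3, 20, 88, -35, 69, 18, 1112, 1, 1] : List ℤ).getD j 0

theorem cert2 (b : ℕ → Bool) : 8000 * (if xor (b 1) (xor (b 2) (b 3)) then -1 else 1 : ℤ) ≤
    3770 + ∑ j ∈ range 18, al2 j * (1 - 2 * ((b (j + 1)).toNat : ℤ)) +
      ((tb G2 (16 * idx b [1, 2, 3, 4, 5, 6, 7, 8, 9, 10, 11, 12, 13, 14, 15, 16, 17]) : ℤ) -
        tb G3 (16 * idx (fun j => xor (b (j + 1)) (b 1)) [1, 2, 3, 4, 5, 6, 7, 8, 9, 10, 11, 12, 13, 14, 15, 16, 17])) +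
      (2 * ((tb P1 (16 * idx b [2, 4, 6, 8, 10, 12, 14, 16, 18]) : ℤ) - 4872) - ((tb P2 (16 * idx b [1, 2, 3, 4, 5, 6, 7, 8, 9]) : ℤ) - 4872)) +
      (0 - ((tb Q0 (16 * idx b [1, 2, 3, 4, 5, 6]) : ℤ) - 1893)) := by
  have hn : ∀ c : Bool, (!c).toNat = 1 - c.toNat := by decide
  have hc : ∀ c : Bool, c.toNat ≤ 1 := by decide
  have a4 := hc (b 4)
  have a5 := hc (b 5)
  have a6 := hc (b 6)
  have a7 := hc (b 7)
  have a8 := hc (b 8)
  have a9 := hc (b 9)
  have a10 := hc (b 10)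
  have a11 := hc (b 11)
  have a12 := hc (b 12)
  have a13 := hc (b 13)
  have a14 := hc (b 14)
  have a15 := hc (b 15)
  have a16 := hc (b 16)
  have a17 := hc (b 17)
  have a18 := hc (b 18)
  have key : ∀ c p : ℕ, ∀ l1 l2 : List Lv,
      c + lh G3 P2 Q0 b ≤ p + sp l1 (fun j => b (j + 4)) + sp l2 (fun j => b (j + 10)) + rh G2 P1 0 b →
      ((p + sp l1 (fun j => b (j + 4)) + sp l2 (fun j => b (j + 10)) : ℕ) : ℤ) - c =
        3770 + -2979 + ∑ j ∈ range 18, al2 j * (1 - 2 * ((b (j + 1)).toNat : ℤ)) -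
          8000 * (if xor (b 1) (xor (b 2) (b 3)) then -1 else 1 : ℤ) →
      8000 * (if xor (b 1) (xor (b 2) (b 3)) then -1 else 1 : ℤ) ≤
    3770 + ∑ j ∈ range 18, al2 j * (1 - 2 * ((b (j + 1)).toNat : ℤ)) +
      ((tb G2 (16 * idx b [1, 2, 3, 4, 5, 6, 7, 8, 9, 10, 11, 12, 13, 14, 15, 16, 17]) : ℤ) -
        tb G3 (16 * idx (fun j => xor (b (j + 1)) (b 1)) [1, 2, 3, 4, 5, 6, 7, 8, 9, 10, 11, 12, 13, 14, 15, 16, 17])) +
      (2 * ((tb P1 (16 * idx b [2, 4, 6, 8, 10, 12, 14, 16, 18]) : ℤ) - 4872) - ((tb P2 (16 * idx b [1, 2, 3, 4, 5, 6, 7, 8, 9]) : ℤ) - 4872)) +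
      (0 - ((tb Q0 (16 * idx b [1, 2, 3, 4, 5, 6]) : ℤ) - 1893)) := by
    intro c p l1 l2 h1 h2
    have h3 := Int.ofNat_le.2 h1
    unfold lh rh at h3
    push_cast at h2 h3
    have hz2 : tb 0 (16 * idx b [3, 6, 9, 12, 15, 18]) = 0 := by rw [tb_eq]; simp
    rw [hz2] at h3
    push_cast at h3
    linarith
  cases b1 : b 1 <;> cases b2 : b 2 <;> cases b3 : b 3
  · have h := chk_sound _ _ _ _ _ _ _ _ _ _ _ _ _ _ false false false thla20 thlb20 rfl rfl rfl rfl chk20 b b1 b2 b3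
    rw [b1, b2, b3] at key
    refine key _ _ _ _ h ?_
    simp only [sum_range_succ, range_zero, sum_empty, al2, List.getD_cons_zero, List.getD_cons_succ, b1, b2, b3,
      la20, lb20, sp, hn, Bool.toNat_false, Bool.toNat_true, Bool.xor_false, Bool.xor_true, Bool.not_true, Bool.not_false]
    push_cast
    norm_num
    omega
  · have h := chk_sound _ _ _ _ _ _ _ _ _ _ _ _ _ _ false false true thla20 thlb20 rfl rfl rfl rfl chk21 b b1 b2 b3
    rw [b1, b2, b3] at key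
    refine key _ _ _ _ h ?_
    simp only [sum_range_succ, range_zero, sum_empty, al2, List.getD_cons_zero, List.getD_cons_succ, b1, b2, b3,
      la20, lb20, sp, hn, Bool.toNat_false, Bool.toNat_true, Bool.xor_false, Bool.xor_true, Bool.not_true, Bool.not_false]
    push_cast
    norm_num
    omega
  · have h := chk_sound _ _ _ _ _ _ _ _ _ _ _ _ _ _ false true false thla20 thlb20 rfl rfl rfl rfl chk22 b b1 b2 b3
    rw [b1, b2, b3] at key
    refine key _ _ _ _ h ?_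
    simp only [sum_range_succ, range_zero, sum_empty, al2, List.getD_cons_zero, List.getD_cons_succ, b1, b2, b3,
      la20, lb20, sp, hn, Bool.toNat_false, Bool.toNat_true, Bool.xor_false, Bool.xor_true, Bool.not_true, Bool.not_false]
    push_cast
    norm_num
    omega
  · have h := chk_sound _ _ _ _ _ _ _ _ _ _ _ _ _ _ false true true thla20 thlb20 rfl rfl rfl rfl chk23 b b1 b2 b3
    rw [b1, b2, b3] at key
    refine key _ _ _ _ h ?_
    simp only [sum_range_succ, range_zero, sum_empty, al2, List.getD_cons_zero, List.getD_cons_succ, b1, b2, b3,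
      la20, lb20, sp, hn, Bool.toNat_false, Bool.toNat_true, Bool.xor_false, Bool.xor_true, Bool.not_true, Bool.not_false]
    push_cast
    norm_num
    omega
  · have h := chk_sound _ _ _ _ _ _ _ _ _ _ _ _ _ _ true false false thla21 thlb21 rfl rfl rfl rfl chk24 b b1 b2 b3
    rw [b1, b2, b3] at key
    refine key _ _ _ _ h ?_
    simp only [sum_range_succ, range_zero, sum_empty, al2, List.getD_cons_zero, List.getD_cons_succ, b1, b2, b3,
      la21, lb21, sp, hn, Bool.toNat_false, Bool.toNat_true, Bool.xor_false, Bool.xor_true, Bool.not_true, Bool.not_false]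
    push_cast
    norm_num
    omega
  · have h := chk_sound _ _ _ _ _ _ _ _ _ _ _ _ _ _ true false true thla21 thlb21 rfl rfl rfl rfl chk25 b b1 b2 b3
    rw [b1, b2, b3] at key
    refine key _ _ _ _ h ?_
    simp only [sum_range_succ, range_zero, sum_empty, al2, List.getD_cons_zero, List.getD_cons_succ, b1, b2, b3,
      la21, lb21, sp, hn, Bool.toNat_false, Bool.toNat_true, Bool.xor_false, Bool.xor_true, Bool.not_true, Bool.not_false]
    push_cast
    norm_num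
    omega
  · have h := chk_sound _ _ _ _ _ _ _ _ _ _ _ _ _ _ true true false thla21 thlb21 rfl rfl rfl rfl chk26 b b1 b2 b3
    rw [b1, b2, b3] at key
    refine key _ _ _ _ h ?_
    simp only [sum_range_succ, range_zero, sum_empty, al2, List.getD_cons_zero, List.getD_cons_succ, b1, b2, b3,
      la21, lb21, sp, hn, Bool.toNat_false, Bool.toNat_true, Bool.xor_false, Bool.xor_true, Bool.not_true, Bool.not_false]
    push_cast
    norm_num
    omega
  · have h := chk_sound _ _ _ _ _ _ _ _ _ _ _ _ _ _ true true true thla21 thlb21 rfl rfl rfl rfl chk27 b b1 b2 b3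
    rw [b1, b2, b3] at key
    refine key _ _ _ _ h ?_
    simp only [sum_range_succ, range_zero, sum_empty, al2, List.getD_cons_zero, List.getD_cons_succ, b1, b2, b3,
      la21, lb21, sp, hn, Bool.toNat_false, Bool.toNat_true, Bool.xor_false, Bool.xor_true, Bool.not_true, Bool.not_false]
    push_cast
    norm_num
    omega

end Pool.Agent.E8helper83.FP.B
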