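import Pool.Agent.E8helper83.FP.GoU
import Pool.Agent.E8helper83.FP.DataUP

/-!
Library E8helper83.FP (helper83): the kernel check of the certificate for the four-term sums averaged over
smooth differences, upper bound.
-/

set_option autoImplicit false

namespace Pool.Agent.E8helper83.FP.UP

open Finset

/-- increments -/
def la0 : List Lu :=
  [⟨131072, 0, 262144, 2048, 0, 128, 0, 0, 1046, 0⟩,
   ⟨65536, 0, 131072, 0, 0, 0, 64, 0, 632, 0⟩,
   ⟨32768, 0, 65536, 1024, 256, 0, 0, 64, 848, 0⟩,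
   ⟨16384, 0, 32768, 0, 0, 0, 0, 0, 0, 300⟩,
   ⟨8192, 0, 16384, 512, 0, 64, 0, 0, 1152, 0⟩,
   ⟨4096, 0, 8192, 0, 128, 0, 0, 0, 462, 0⟩]

/-- increments -/
def lb0 : List Lu :=
  [⟨2048, 0, 4096, 256, 0, 0, 32, 0, 746, 0⟩,
   ⟨1024, 0, 2048, 0, 0, 0, 0, 0, 0, 8⟩,
   ⟨512, 0, 1024, 128, 64, 32, 0, 32, 998, 0⟩,
   ⟨256, 0, 512, 0, 0, 0, 0, 0, 6, 0⟩,
   ⟨128, 0, 256, 64, 0, 0, 0, 0, 0, 282⟩,
   ⟨64, 0, 128, 0, 32, 0, 16, 0, 446, 0⟩,
   ⟨32, 0, 64, 32, 0, 16, 0, 0, 1126, 0⟩,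
   ⟨16, 0, 32, 0, 0, 0, 0, 0, 0, 44⟩,
   ⟨0, 0, 16, 16, 16, 0, 0, 16, 346, 0⟩]

/-- increments -/
def la1 : List Lu :=
  [⟨131072, 262144, 0, 2048, 0, 128, 0, 0, 1046, 0⟩,
   ⟨65536, 131072, 0, 0, 0, 0, 64, 0, 632, 0⟩,
   ⟨32768, 65536, 0, 1024, 256, 0, 0, 64, 848, 0⟩,
   ⟨16384, 32768, 0, 0, 0, 0, 0, 0, 0, 300⟩,
   ⟨8192, 16384, 0, 512, 0, 64, 0, 0, 1152, 0⟩,
   ⟨4096, 8192, 0, 0, 128, 0, 0, 0, 462, 0⟩]

/-- increments -/
def lb1 : List Lu :=
  [⟨2048, 4096, 0, 256, 0, 0, 32, 0, 746, 0⟩,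
   ⟨1024, 2048, 0, 0, 0, 0, 0, 0, 0, 8⟩,
   ⟨512, 1024, 0, 128, 64, 32, 0, 32, 998, 0⟩,
   ⟨256, 512, 0, 0, 0, 0, 0, 0, 6, 0⟩,
   ⟨128, 256, 0, 64, 0, 0, 0, 0, 0, 282⟩,
   ⟨64, 128, 0, 0, 32, 0, 16, 0, 446, 0⟩,
   ⟨32, 64, 0, 32, 0, 16, 0, 0, 1126, 0⟩,
   ⟨16, 32, 0, 0, 0, 0, 0, 0, 0, 44⟩,
   ⟨0, 16, 0, 16, 16, 0, 0, 16, 346, 0⟩]

lemma thla0 : Th1 false la0 := by
  constructor <;> intro b <;>
    simp [la0, so, su, idx, hnot] <;> omega

lemma thlb0 : Th2 false lb0 := by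
  constructor <;> intro b <;>
    simp [lb0, so, su, idx, hnot] <;> omega

lemma thla1 : Th1 true la1 := by
  constructor <;> intro b <;>
    simp [la1, so, su, idx, hnot] <;> omega

lemma thlb1 : Th2 true lb1 := by
  constructor <;> intro b <;>
    simp [lb1, so, su, idx, hnot] <;> omega

theorem chk0 : chkU 16000 G B2 B3 B4 B5 B6 la0 lb0 0 0 0 0 8193 = true := by
  decide +kernel

theorem chk1 : chkU 0 G B2 B3 B4 B5 B6 la0 lb0 262144 524288 0 512 7485 = true := by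
  decide +kernel

theorem chk2 : chkU 0 G B2 B3 B4 B5 B6 la0 lb0 524288 1048576 4096 0 7197 = true := by
  decide +kernel

theorem chk3 : chkU 16000 G B2 B3 B4 B5 B6 la0 lb0 786432 1572864 4096 512 6489 = true := by
  decide +kernel

theorem chk4 : chkU 0 G B2 B3 B4 B5 B6 la1 lb1 1048576 1572864 0 0 7263 = true := by
  decide +kernel

theorem chk5 : chkU 16000 G B2 B3 B4 B5 B6 la1 lb1 1310720 1048576 0 512 6555 = true := by
  decide +kernel

theorem chk6 : chkU 16000 G B2 B3 B4 B5 B6 la1 lb1 1572864 524288 4096 0 6267 = true := by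
  decide +kernel

theorem chk7 : chkU 0 G B2 B3 B4 B5 B6 la1 lb1 1835008 0 4096 512 5559 = true := by
  decide +kernel

/-- the coefficients of the pair terms -/
def al (j : ℕ) : ℤ := ([465, 498, 354, 523, 316, 424, -150, 576, 231, 373, -4, 499, 3, -141, 223, 563, -22, 173] : List ℤ).getD j 0

theorem cert (b : ℕ → Bool) : 8000 * ((if xor (b 1) (xor (b 2) (b 3)) then -1 else 1 : ℤ)) ≤
    3097 + ∑ j ∈ range 18, al j * (1 - 2 * ((b (j + 1)).toNat : ℤ)) +
      ((rhU G B2 B3 B4 B5 B6 b : ℤ) - lhU G B2 B3 B4 B5 B6 b) := by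
  have hn : ∀ c : Bool, (!c).toNat = 1 - c.toNat := by decide
  have hc : ∀ c : Bool, c.toNat ≤ 1 := by decide
  have a4 := hc (b 4)
  have a5 := hc (b 5)
  have a6 := hc (b 6)
  have a7 := hc (b 7)
  have a8 := hc (b 8)
  have a9 := hc (b 9)
  have a10 := hc (b 10)
  have a11 := hc (b 11)
  have a12 := hc (b 12)
  have a13 := hc (b 13)
  have a14 := hc (b 14)
  have a15 := hc (b 15)
  have a16 := hc (b 16)
  have a17 := hc (b 17)
  have a18 := hc (b 18)
  have key : ∀ c p : ℕ, ∀ l1 l2 : List Lu,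
      c + lhU G B2 B3 B4 B5 B6 b ≤ p + su Lu.p0 Lu.p1 l1 (fun j => b (j + 4)) +
        su Lu.p0 Lu.p1 l2 (fun j => b (j + 10)) + rhU G B2 B3 B4 B5 B6 b →
      ((p + su Lu.p0 Lu.p1 l1 (fun j => b (j + 4)) + su Lu.p0 Lu.p1 l2 (fun j => b (j + 10)) : ℕ) : ℤ) - c =
        3097 + ∑ j ∈ range 18, al j * (1 - 2 * ((b (j + 1)).toNat : ℤ)) -
          8000 * ((if xor (b 1) (xor (b 2) (b 3)) then -1 else 1 : ℤ)) →
      8000 * ((if xor (b 1) (xor (b 2) (b 3)) then -1 else 1 : ℤ)) ≤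
    3097 + ∑ j ∈ range 18, al j * (1 - 2 * ((b (j + 1)).toNat : ℤ)) +
      ((rhU G B2 B3 B4 B5 B6 b : ℤ) - lhU G B2 B3 B4 B5 B6 b) := by
    intro c p l1 l2 h1 h2
    have h3 := Int.ofNat_le.2 h1
    push_cast at h2 h3
    linarith
  cases b1 : b 1 <;> cases b2 : b 2 <;> cases b3 : b 3
  · have h := chkU_sound _ _ _ _ _ _ _ _ _ _ _ _ _ _ false false false thla0 thlb0 rfl rfl rfl rfl chk0 b b1 b2 b3
    rw [b1, b2, b3] at key
    refine key _ _ _ _ h ?_
    simp only [sum_range_succ, range_zero, sum_empty, al, List.getD_cons_zero, List.getD_cons_succ, b1, b2, b3,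
      la0, lb0, su, hn, Bool.toNat_false, Bool.toNat_true, Bool.xor_false, Bool.xor_true, Bool.not_true, Bool.not_false]
    push_cast
    norm_num
    omega
  · have h := chkU_sound _ _ _ _ _ _ _ _ _ _ _ _ _ _ false false true thla0 thlb0 rfl rfl rfl rfl chk1 b b1 b2 b3
    rw [b1, b2, b3] at key
    refine key _ _ _ _ h ?_
    simp only [sum_range_succ, range_zero, sum_empty, al, List.getD_cons_zero, List.getD_cons_succ, b1, b2, b3,
      la0, lb0, su, hn, Bool.toNat_false, Bool.toNat_true, Bool.xor_false, Bool.xor_true, Bool.not_true, Bool.not_false]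
    push_cast
    norm_num
    omega
  · have h := chkU_sound _ _ _ _ _ _ _ _ _ _ _ _ _ _ false true false thla0 thlb0 rfl rfl rfl rfl chk2 b b1 b2 b3
    rw [b1, b2, b3] at key
    refine key _ _ _ _ h ?_
    simp only [sum_range_succ, range_zero, sum_empty, al, List.getD_cons_zero, List.getD_cons_succ, b1, b2, b3,
      la0, lb0, su, hn, Bool.toNat_false, Bool.toNat_true, Bool.xor_false, Bool.xor_true, Bool.not_true, Bool.not_false]
    push_cast
    norm_num
    omega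
  · have h := chkU_sound _ _ _ _ _ _ _ _ _ _ _ _ _ _ false true true thla0 thlb0 rfl rfl rfl rfl chk3 b b1 b2 b3
    rw [b1, b2, b3] at key
    refine key _ _ _ _ h ?_
    simp only [sum_range_succ, range_zero, sum_empty, al, List.getD_cons_zero, List.getD_cons_succ, b1, b2, b3,
      la0, lb0, su, hn, Bool.toNat_false, Bool.toNat_true, Bool.xor_false, Bool.xor_true, Bool.not_true, Bool.not_false]
    push_cast
    norm_num
    omega
  · have h := chkU_sound _ _ _ _ _ _ _ _ _ _ _ _ _ _ true false false thla1 thlb1 rfl rfl rfl rfl chk4 b b1 b2 b3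
    rw [b1, b2, b3] at key
    refine key _ _ _ _ h ?_
    simp only [sum_range_succ, range_zero, sum_empty, al, List.getD_cons_zero, List.getD_cons_succ, b1, b2, b3,
      la1, lb1, su, hn, Bool.toNat_false, Bool.toNat_true, Bool.xor_false, Bool.xor_true, Bool.not_true, Bool.not_false]
    push_cast
    norm_num
    omega
  · have h := chkU_sound _ _ _ _ _ _ _ _ _ _ _ _ _ _ true false true thla1 thlb1 rfl rfl rfl rfl chk5 b b1 b2 b3
    rw [b1, b2, b3] at key
    refine key _ _ _ _ h ?_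
    simp only [sum_range_succ, range_zero, sum_empty, al, List.getD_cons_zero, List.getD_cons_succ, b1, b2, b3,
      la1, lb1, su, hn, Bool.toNat_false, Bool.toNat_true, Bool.xor_false, Bool.xor_true, Bool.not_true, Bool.not_false]
    push_cast
    norm_num
    omega
  · have h := chkU_sound _ _ _ _ _ _ _ _ _ _ _ _ _ _ true true false thla1 thlb1 rfl rfl rfl rfl chk6 b b1 b2 b3
    rw [b1, b2, b3] at key
    refine key _ _ _ _ h ?_
    simp only [sum_range_succ, range_zero, sum_empty, al, List.getD_cons_zero, List.getD_cons_succ, b1, b2, b3,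
      la1, lb1, su, hn, Bool.toNat_false, Bool.toNat_true, Bool.xor_false, Bool.xor_true, Bool.not_true, Bool.not_false]
    push_cast
    norm_num
    omega
  · have h := chkU_sound _ _ _ _ _ _ _ _ _ _ _ _ _ _ true true true thla1 thlb1 rfl rfl rfl rfl chk7 b b1 b2 b3
    rw [b1, b2, b3] at key
    refine key _ _ _ _ h ?_
    simp only [sum_range_succ, range_zero, sum_empty, al, List.getD_cons_zero, List.getD_cons_succ, b1, b2, b3,
      la1, lb1, su, hn, Bool.toNat_false, Bool.toNat_true, Bool.xor_false, Bool.xor_true, Bool.not_true, Bool.not_false]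
    push_cast
    norm_num
    omega

end Pool.Agent.E8helper83.FP.UP
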