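import Pool.Agent.E8helper83.FP.AvgU

/-!
Library E8helper83.FP (helper83): four-term correlations of the Liouville function averaged over the
differences `2 ^ i 3 ^ j 5 ^ l d`, at almost all scales and in logarithmic mean.
-/

set_option autoImplicit false

namespace Pool.Agent.E8helper83.FP

open Finset Filter Topology
open Pool.Agent.H376R2.MR (lam)
open Pool.Agent.TH823.MRS (lam_bdd lam_flip expo_lam)
open Pool.Agent.Y958.TC (Av)
open Pool.Agent.Y958.U (LZ ls li ls_eq li_mem li_not abel_log LZ_iff diag')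

/-- one exceptional set for all pair sums -/
theorem pairs_all (δ : ℝ) (hδ : 0 < δ) : ∃ E : Set ℕ, LZ E ∧ ∀ h : ℕ, 1 ≤ h → ∃ N₀ : ℕ, ∀ N : ℕ,
    N₀ ≤ N → N ∉ E → |∑ n ∈ Icc 1 N, ((lam n : ℤ) : ℝ) * (lam (n + h) : ℤ)| ≤ 2 * δ * N := by
  obtain ⟨F, hF, hd⟩ := diag' (fun h : ℕ => {N | δ < |Av N (fun n => (fun _ => (1 : ℝ)) n * lam n * lam (n + (h + 1)))|})
    (fun h => Pool.Agent.Y958.TC.two s_avc lam lam_bdd lam_flip expo_lam (h + 1) (by omega) 1 le_rfl
      (fun _ => 1) (fun _ => by norm_num) (fun _ => rfl) δ hδ)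
  refine ⟨F, hF, fun h hh => ?_⟩
  obtain ⟨N₀, hN₀⟩ := hd (h - 1)
  have hh1 : h - 1 + 1 = h := by omega
  simp only [hh1] at hN₀
  refine ⟨N₀ + ⌈2 / δ⌉₊ + 1, fun N hN hNF => ?_⟩
  have h1 : ¬ δ < |Av N (fun n => (1 : ℝ) * lam n * lam (n + h))| := fun hc => hNF (hN₀ N hc (by omega))
  rw [not_lt] at h1
  have hNr : (0 : ℝ) < N := by exact_mod_cast (by omega : 0 < N)
  have hN2 : 2 / δ ≤ N := (Nat.le_ceil _).trans (by exact_mod_cast (by omega : ⌈2 / δ⌉₊ ≤ N))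
  rw [div_le_iff₀ hδ] at hN2
  unfold Pool.Agent.Y958.TC.Av at h1
  rw [abs_div, abs_of_pos hNr, div_le_iff₀ hNr] at h1
  simp only [one_mul] at h1
  set F' : ℕ → ℝ := fun n => ((lam n : ℤ) : ℝ) * (lam (n + h) : ℤ) with hF'
  have hF1 : ∀ n, |F' n| ≤ 1 := by
    intro n
    rw [hF']
    simp only
    rw [abs_mul, lam_abs, lam_abs, mul_one]
  have h2 : ∑ n ∈ Icc 1 N, F' n = ∑ n ∈ range N, F' n + F' N - F' 0 := by
    rw [← sum_range_succ, sum_range_succ', add_sub_cancel_right]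
    rw [range_eq_Ico, sum_Ico_add' F' 0 N 1]
    apply sum_congr _ fun _ _ => rfl
    ext n
    simp only [mem_Ico, mem_Icc]
    omega
  rw [h2]
  have h3 := abs_sub (∑ n ∈ range N, F' n + F' N) (F' 0)
  have h4 := abs_add_le (∑ n ∈ range N, F' n) (F' N)
  have h5 := hF1 N
  have h6 := hF1 0
  linarith

/-- from almost all scales to logarithmic means, upper bounds -/
lemma log_upper (F : ℕ → ℝ) (hF : ∀ n, |F n| ≤ 1) (E : Set ℕ) (hE : LZ E) (c : ℝ) (N₀ : ℕ)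
    (h : ∀ N : ℕ, N₀ ≤ N → N ∉ E → ∑ n ∈ Icc 1 N, F n ≤ c * N) (ε : ℝ) (hε : 0 < ε) :
    ∃ X₀ : ℕ, ∀ X : ℕ, X₀ ≤ X → ∑ n ∈ Icc 1 X, F n / n ≤ (c + ε) * Real.log X := by
  classical
  obtain ⟨X₁, hX₁⟩ := (LZ_iff _).1 hE (ε / (2 * (2 + |c|))) (by positivity)
  obtain ⟨X₂, hX₂⟩ := eventually_atTop.1 (log_atTop'.eventually_ge_atTop
    ((2 * (|c| + 1 + (1 + |c|) * N₀)) / ε))
  refine ⟨X₁ + X₂ + 2, fun X hX => ?_⟩
  have h1 := hX₁ X (by omega)
  have h2 := hX₂ X (by omega)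
  rw [div_le_iff₀ hε] at h2
  have hS : ∀ N : ℕ, |∑ n ∈ Icc 1 N, F n| ≤ N := by
    intro N
    refine (abs_sum_le_sum_abs _ _).trans ((sum_le_sum fun k _ => hF _).trans (le_of_eq ?_))
    simp
  rw [abel_log]
  have h3 : (∑ n ∈ Icc 1 X, F n) / ((X : ℝ) + 1) ≤ 1 := by
    rw [div_le_one (by positivity)]
    have := (abs_le.1 (hS X)).2
    linarith
  have h4 : ∑ N ∈ Icc 1 X, (∑ n ∈ Icc 1 N, F n) * (1 / ((N : ℝ) * (N + 1))) ≤
      c * ∑ N ∈ Icc 1 X, (N : ℝ) * (1 / ((N : ℝ) * (N + 1))) + (1 + |c|) * (ls E X + N₀) := by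
    have h5 : ∀ N ∈ Icc 1 X, (∑ n ∈ Icc 1 N, F n) * (1 / ((N : ℝ) * (N + 1))) ≤
        c * ((N : ℝ) * (1 / ((N : ℝ) * (N + 1)))) + (1 + |c|) * (li E N + if N < N₀ then 1 else 0) := by
      intro N hN
      rw [mem_Icc] at hN
      have hN0 : (0 : ℝ) < N := by exact_mod_cast (by omega : 0 < N)
      have hN1 : (1 : ℝ) ≤ N := by exact_mod_cast hN.1
      have e1 : (0 : ℝ) < 1 / ((N : ℝ) * (N + 1)) := by positivity
      have e2 : (N : ℝ) * (1 / ((N : ℝ) * (N + 1))) ≤ 1 / N := by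
        rw [mul_one_div, div_le_div_iff₀ (by positivity) hN0]
        nlinarith
      have e4 : (1 : ℝ) / N ≤ 1 := by rw [div_le_one hN0]; exact hN1
      have e3 : (∑ n ∈ Icc 1 N, F n) * (1 / ((N : ℝ) * (N + 1))) ≤ N * (1 / ((N : ℝ) * (N + 1))) :=
        mul_le_mul_of_nonneg_right (abs_le.1 (hS N)).2 e1.le
      have e6 : 0 ≤ (N : ℝ) * (1 / ((N : ℝ) * (N + 1))) := by positivity
      have e5 : -(|c| * ((N : ℝ) * (1 / ((N : ℝ) * (N + 1))))) ≤ c * ((N : ℝ) * (1 / ((N : ℝ) * (N + 1)))) := by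
        rw [← neg_mul]
        exact mul_le_mul_of_nonneg_right (neg_abs_le c) e6
      have hc0 := abs_nonneg c
      by_cases hNE : N ∈ E
      · rw [li_mem hNE]
        have e7 : (0 : ℝ) ≤ (if N < N₀ then 1 else 0 : ℝ) := by split_ifs <;> norm_num
        have e8 : (1 + |c|) * (1 / (N : ℝ)) ≤ (1 + |c|) * (1 / (N : ℝ) + if N < N₀ then 1 else 0) :=
          mul_le_mul_of_nonneg_left (by linarith) (by linarith)
        have e9 : |c| * ((N : ℝ) * (1 / ((N : ℝ) * (N + 1)))) ≤ |c| * (1 / N) :=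
          mul_le_mul_of_nonneg_left e2 hc0
        linarith
      · rw [li_not hNE, zero_add]
        by_cases hlt : N < N₀
        · rw [if_pos hlt]
          have e9 : |c| * ((N : ℝ) * (1 / ((N : ℝ) * (N + 1)))) ≤ |c| * 1 :=
            mul_le_mul_of_nonneg_left (e2.trans e4) hc0
          linarith
        · rw [if_neg hlt, mul_zero, add_zero]
          have h8 := mul_le_mul_of_nonneg_right (h N (not_lt.1 hlt) hNE) e1.le
          linarith
    refine (sum_le_sum h5).trans ?_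
    rw [sum_add_distrib, ← mul_sum, ← mul_sum, sum_add_distrib, ls_eq]
    have h6 : ∑ N ∈ Icc 1 X, (if N < N₀ then (1 : ℝ) else 0) ≤ N₀ := by
      rw [← sum_filter, sum_const, nsmul_eq_mul, mul_one]
      have : ((Icc 1 X).filter (fun N => N < N₀)).card ≤ (range N₀).card :=
        card_le_card fun n hn => mem_range.2 (mem_filter.1 hn).2
      rw [card_range] at this
      exact_mod_cast this
    have hc0 := abs_nonneg c
    have h7 : (1 + |c|) * (∑ x ∈ Icc 1 X, li E x + ∑ x ∈ Icc 1 X, (if x < N₀ then (1 : ℝ) else 0)) ≤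
        (1 + |c|) * (∑ x ∈ Icc 1 X, li E x + N₀) :=
      mul_le_mul_of_nonneg_left (by linarith) (by linarith)
    linarith
  -- the harmonic sum
  have h9 : ∑ N ∈ Icc 1 X, (N : ℝ) * (1 / ((N : ℝ) * (N + 1))) = ∑ N ∈ Icc 1 X, (1 : ℝ) / ((N : ℝ) + 1) := by
    apply sum_congr rfl
    intro N hN
    rw [mem_Icc] at hN
    have hN0 : (0 : ℝ) < N := by exact_mod_cast (by omega : 0 < N)
    field_simp
  have h10 : |c * ∑ N ∈ Icc 1 X, (1 : ℝ) / ((N : ℝ) + 1) - c * Real.log X| ≤ |c| * 1 := by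
    rw [← mul_sub, abs_mul]
    apply mul_le_mul_of_nonneg_left _ (abs_nonneg c)
    have hH : ∑ N ∈ Icc 1 X, (1 : ℝ) / ((N : ℝ) + 1) = ((harmonic (X + 1) : ℚ) : ℝ) - 1 := by
      have h11 : ∀ X : ℕ, ∑ N ∈ Icc 1 X, (1 : ℝ) / ((N : ℝ) + 1) = ((harmonic (X + 1) : ℚ) : ℝ) - 1 := by
        intro X
        induction X with
        | zero => simp
        | succ X ih =>
          rw [sum_Icc_succ_top (by omega), ih, harmonic_succ (X + 1)]
          push_cast
          rw [one_div]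
          ring
      exact h11 X
    rw [hH]
    have hXpos : (0 : ℝ) < X := by exact_mod_cast (by omega : 0 < X)
    have u1 := harmonic_le_one_add_log (X + 1)
    have u2 := log_add_one_le_harmonic (X + 1)
    have u3 : Real.log ((X : ℝ)) ≤ Real.log ((X + 1 + 1 : ℕ) : ℝ) :=
      Real.log_le_log hXpos (by push_cast; linarith)
    have u4 : Real.log ((X + 1 : ℕ) : ℝ) ≤ Real.log X + 1 := by
      have v1 : ((X + 1 : ℕ) : ℝ) ≤ 2 * X := by
        push_cast
        have : (1 : ℝ) ≤ X := by exact_mod_cast (by omega : 1 ≤ X)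
        linarith
      have v2 := Real.log_le_log (by positivity) v1
      rw [Real.log_mul (by norm_num) (by positivity)] at v2
      have v3 : Real.log 2 ≤ 1 := by
        have := Real.log_two_lt_d9
        linarith
      linarith
    rw [abs_le]
    constructor <;> linarith
  have h12 := (abs_le.1 h10).2
  rw [h9] at h4
  have hc0 := abs_nonneg c
  have hL : (1 + |c|) * ls E X ≤ ε / 2 * Real.log X := by
    have hl0 : 0 ≤ Real.log X := Real.log_natCast_nonneg X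
    calc (1 + |c|) * ls E X ≤ (1 + |c|) * (ε / (2 * (2 + |c|)) * Real.log X) :=
          mul_le_mul_of_nonneg_left h1 (by linarith)
      _ = ((1 + |c|) / (2 + |c|)) * (ε / 2 * Real.log X) := by field_simp
      _ ≤ 1 * (ε / 2 * Real.log X) := by
          apply mul_le_mul_of_nonneg_right _ (by positivity)
          rw [div_le_one (by linarith)]
          linarith
      _ = ε / 2 * Real.log X := one_mul _
  linarith

/-- the average of the four-term products over the differences -/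
noncomputable def bav (K d n : ℕ) : ℝ := box K d (fun e => (P4 lam e n : ℝ)) / K ^ 3

lemma P4_abs (e n : ℕ) : |(P4 lam e n : ℝ)| = 1 := by
  unfold P4
  push_cast
  rw [abs_mul, abs_mul, abs_mul, lam_abs, lam_abs, lam_abs, lam_abs]
  norm_num

lemma box_abs (K d : ℕ) (φ : ℕ → ℝ) (h : ∀ e, |φ e| ≤ 1) : |box K d φ| ≤ K ^ 3 := by
  have h1 := box_le K d φ (fun _ => 1) fun i _ j _ l _ => (abs_le.1 (h _)).2
  have h2 := box_le K d (fun _ => -1) φ fun i _ j _ l _ => (abs_le.1 (h _)).1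
  rw [box_const] at h1 h2
  rw [abs_le]
  constructor <;> linarith

lemma bav_abs (K d n : ℕ) (hK : 1 ≤ K) : |bav K d n| ≤ 1 := by
  unfold bav
  have hK0 : (0 : ℝ) < K := by exact_mod_cast hK
  rw [abs_div, abs_of_pos (by positivity : (0 : ℝ) < (K : ℝ) ^ 3), div_le_one (by positivity)]
  exact box_abs K d _ fun e => (P4_abs e n).le

lemma box_sum (K d : ℕ) (s : Finset ℕ) (f : ℕ → ℕ → ℝ) :
    box K d (fun e => ∑ n ∈ s, f e n) = ∑ n ∈ s, box K d (fun e => f e n) := by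
  classical
  induction s using Finset.induction_on with
  | empty => simp [box]
  | insert a s ha ih =>
    simp only [sum_insert ha]
    rw [box_add, ih]

theorem finalU : ∃ E : Set ℕ, LZ E ∧ ∀ K : ℕ, 10 ^ 6 ≤ K → ∀ d : ℕ, 1 ≤ d →
    (∃ N₀ : ℕ, ∀ N : ℕ, N₀ ≤ N → N ∉ E →
      -(99 / 250) * N ≤ ∑ n ∈ Icc 1 N, bav K d n ∧ ∑ n ∈ Icc 1 N, bav K d n ≤ 97 / 250 * N) ∧
    ∃ X₀ : ℕ, ∀ X : ℕ, X₀ ≤ X →
      -(99 / 250) * Real.log X ≤ ∑ n ∈ Icc 1 X, bav K d n / n ∧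
        ∑ n ∈ Icc 1 X, bav K d n / n ≤ 97 / 250 * Real.log X := by
  obtain ⟨E, hE, hp⟩ := pairs_all (1 / (2 * 10 ^ 7)) (by positivity)
  refine ⟨E, hE, fun K hK d hd => ?_⟩
  have hK1 : 1 ≤ K := le_trans (by norm_num) hK
  have hK0 : (0 : ℝ) < K := by exact_mod_cast (by omega : 0 < K)
  -- the thresholds
  have hex : ∀ h : ℕ, ∃ N₀ : ℕ, ∀ N : ℕ, N₀ ≤ N → N ∉ E → 1 ≤ h →
      |∑ n ∈ Icc 1 N, ((lam n : ℤ) : ℝ) * (lam (n + h) : ℤ)| ≤ 1 / 10 ^ 7 * N := by
    intro h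
    by_cases hh : 1 ≤ h
    · obtain ⟨N₀, h1⟩ := hp h hh
      refine ⟨N₀, fun N hN hNE _ => (h1 N hN hNE).trans (le_of_eq (by ring))⟩
    · exact ⟨0, fun N _ _ h => absurd h hh⟩
  choose M hM using hex
  set R : ℕ := 18 * (2 ^ K * 3 ^ K * 5 ^ K * d) + 1 with hR
  set N₁ : ℕ := ∑ h ∈ range (R + 1), M h with hN₁
  have key : ∀ N : ℕ, N₁ + 2 * 65535 * 100 * R ≤ N → N ∉ E →
      -(3166 / 8000) * N ≤ ∑ n ∈ Icc 1 N, bav K d n ∧ ∑ n ∈ Icc 1 N, bav K d n ≤ 3098 / 8000 * N := by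
    intro N hN hNE
    have hpow : ∀ i < K, ∀ j < K, ∀ l < K, 2 ^ i * 3 ^ j * 5 ^ l * d ≤ 2 ^ K * 3 ^ K * 5 ^ K * d := by
      intro i hi j hj l hl
      exact Nat.mul_le_mul_right _ (Nat.mul_le_mul (Nat.mul_le_mul (Nat.pow_le_pow_right (by norm_num) hi.le)
        (Nat.pow_le_pow_right (by norm_num) hj.le)) (Nat.pow_le_pow_right (by norm_num) hl.le))
    have hpair : ∀ i < K, ∀ j < K, ∀ l < K, ∀ r < 18,
      |∑ n ∈ Icc 1 N, ((lam n : ℤ) : ℝ) * (lam (n + (r + 1) * (2 ^ i * 3 ^ j * 5 ^ l * d)) : ℤ)| ≤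
        1 / 10 ^ 7 * N := by
      intro i hi j hj l hl r hr
      have h1 := hpow i hi j hj l hl
      have h2 : (r + 1) * (2 ^ i * 3 ^ j * 5 ^ l * d) ≤ R := by
        calc (r + 1) * (2 ^ i * 3 ^ j * 5 ^ l * d) ≤ 18 * (2 ^ K * 3 ^ K * 5 ^ K * d) :=
              Nat.mul_le_mul (by omega) h1
          _ ≤ R := by omega
      have h3 : M ((r + 1) * (2 ^ i * 3 ^ j * 5 ^ l * d)) ≤ N₁ :=
        single_le_sum (f := M) (fun _ _ => Nat.zero_le _) (mem_range.2 (by omega))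
      refine hM _ N (by omega) hNE ?_
      apply Nat.one_le_iff_ne_zero.2
      positivity
    have hNN : ∀ i < K, ∀ j < K, ∀ l < K, (2 * 65535 : ℝ) * (2 ^ i * 3 ^ j * 5 ^ l * d : ℕ) ≤ 1 / 100 * N := by
      intro i hi j hj l hl
      have h1 := hpow i hi j hj l hl
      have h2 : 2 * 65535 * 100 * (2 ^ i * 3 ^ j * 5 ^ l * d) ≤ N := by omega
      have h3 : ((2 * 65535 * 100 * (2 ^ i * 3 ^ j * 5 ^ l * d) : ℕ) : ℝ) ≤ N := by exact_mod_cast h2
      rw [Nat.cast_mul] at h3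
      push_cast at h3 ⊢
      linarith
    have b1 := box_bound certP K d hK N hpair hNN
    have b2 := box_bound certN K d hK N hpair hNN
    have e : ∑ n ∈ Icc 1 N, bav K d n = box K d (fun e => ∑ n ∈ Icc 1 N, (P4 lam e n : ℝ)) / K ^ 3 := by
      rw [box_sum, sum_div]
      rfl
    rw [e, le_div_iff₀ (by positivity), div_le_iff₀ (by positivity)]
    push_cast at b1 b2
    constructor <;> linarith
  refine ⟨⟨N₁ + 2 * 65535 * 100 * R, fun N hN hNE => ?_⟩, ?_⟩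
  · obtain ⟨k1, k2⟩ := key N hN hNE
    have hN0 : (0 : ℝ) ≤ N := Nat.cast_nonneg N
    constructor <;> linarith
  · obtain ⟨X₁, hX₁⟩ := log_upper (bav K d) (fun n => bav_abs K d n hK1) E hE (3098 / 8000)
      (N₁ + 2 * 65535 * 100 * R) (fun N hN hNE => (key N hN hNE).2) (6 / 8000) (by norm_num)
    obtain ⟨X₂, hX₂⟩ := log_upper (fun n => - bav K d n) (fun n => by rw [abs_neg]; exact bav_abs K d n hK1) E hE
      (3166 / 8000) (N₁ + 2 * 65535 * 100 * R) (fun N hN hNE => by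
        rw [sum_neg_distrib]
        have := (key N hN hNE).1
        linarith) (2 / 8000) (by norm_num)
    refine ⟨X₁ + X₂, fun X hX => ?_⟩
    have k1 := hX₁ X (by omega)
    have k2 := hX₂ X (by omega)
    simp only [neg_div, sum_neg_distrib] at k2
    constructor <;> linarith

end Pool.Agent.E8helper83.FP
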