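import Pool.Agent.E8helper83.FP.AllB

/-!
# The quartics `T (T + d) (T + 2 d) (T + 3 d)`: logarithmic averages of the Liouville function

The two-point theorem (Tao) and `λ(f(n)) λ(f(n + d)) = λ(n) λ(n + 4 d)` bound the logarithmic average of
`λ(f(n))`, `f = T (T + d) (T + 2 d) (T + 3 d)`, by `1 / 2` from above. We go below `1 / 2` for every
difference `d ≥ 1`. The proof combines the two-point theorem in the residue classes modulo `6` with the exact
relations `λ(2 m) = λ(3 m) = -λ(m)` on windows of `19` terms `n, n + d, …, n + 18 d`, through a certificate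
(six times `2 ^ 18` inequalities) checked by the kernel.
-/

set_option autoImplicit false

namespace Pool.Agent.E8helper83.FP.FourTermProgressions

open Finset

/-- Let `d = 2 ^ a 3 ^ b e` with `e` coprime to `6` (every `d ≥ 1` is of this form). The sum of
`λ(n (n + d) (n + 2 d) (n + 3 d)) / n` over `n ≤ X` is at most `(1 / 2 - 0.0285 / (2 ^ a 3 ^ b)) log X` for
all large `X`; for `d` coprime to `6` this is `0.4715 log X`. -/
theorem result (a b e d : ℕ) (he : e.Coprime 6) (hd : d = 2 ^ a * 3 ^ b * e) : ∃ X₀ : ℕ, ∀ X : ℕ, X₀ ≤ X →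
    ∑ n ∈ Icc 1 X, (-1 : ℝ) ^ ArithmeticFunction.cardFactors (n * (n + d) * (n + 2 * d) * (n + 3 * d)) / n ≤
      (1 / 2 - 0.0285 / (2 ^ a * 3 ^ b)) * Real.log X := by
  obtain ⟨X₀, h⟩ := Pool.Agent.E8helper83.FP.B.fourAll a b e he
  rw [← hd] at h
  refine ⟨X₀, fun X hX => ?_⟩
  have h1 := h X hX
  have e : ∀ n ∈ Icc 1 X, (-1 : ℝ) ^ ArithmeticFunction.cardFactors (n * (n + d) * (n + 2 * d) * (n + 3 * d)) / n =
      (Pool.Agent.E8helper83.FP.B.F4 d n : ℝ) / n := by
    intro n hn
    rw [mem_Icc] at hn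
    congr 1
    unfold Pool.Agent.E8helper83.FP.B.F4 Pool.Agent.H376R2.MR.lam
    have k1 : n ≠ 0 := by omega
    have k2 : n + d ≠ 0 := by omega
    have k3 : n + 2 * d ≠ 0 := by omega
    have k4 : n + 3 * d ≠ 0 := by omega
    rw [ArithmeticFunction.cardFactors_mul (mul_ne_zero (mul_ne_zero k1 k2) k3) k4,
      ArithmeticFunction.cardFactors_mul (mul_ne_zero k1 k2) k3, ArithmeticFunction.cardFactors_mul k1 k2,
      pow_add, pow_add, pow_add]
    push_cast
    ring
  rw [sum_congr rfl e]
  refine h1.trans (le_of_eq ?_)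
  congr 1
  rw [mul_one_div]
  norm_num

end Pool.Agent.E8helper83.FP.FourTermProgressions
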