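import Mathlib

/-!
Library E8helper83.FP (helper83): a traversal of all bit strings for the kernel, and its soundness.
-/

set_option autoImplicit false

namespace Pool.Agent.E8helper83.FP

/-- entry `i` of a table of 16 bit numbers; `s = 16 i` -/
def tb (T s : ℕ) : ℕ := Nat.land (Nat.shiftRight T s) 65535

/-- the increments of the five counters at one bit: `a1, c1, d1` if the bit is one, `b0, b1` and
`p0, p1` if it is zero, one -/
structure Lv where
  a1 : ℕ
  b0 : ℕ
  b1 : ℕ
  c1 : ℕ
  d1 : ℕ
  p0 : ℕ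
  p1 : ℕ

/-- traversal of all bit strings -/
noncomputable def go (leaf : ℕ → ℕ → ℕ → ℕ → ℕ → Bool) (l : List Lv) : ℕ → ℕ → ℕ → ℕ → ℕ → Bool :=
  List.rec (motive := fun _ => ℕ → ℕ → ℕ → ℕ → ℕ → Bool) leaf
    (fun e _ ih => Lv.rec (motive := fun _ => ℕ → ℕ → ℕ → ℕ → ℕ → Bool)
      (fun a1 b0 b1 c1 d1 p0 p1 => fun x y u v p =>
        Bool.rec (motive := fun _ => Bool) false
          (ih (Nat.add x a1) (Nat.add y b1) (Nat.add u c1) (Nat.add v d1) (Nat.add p p1))
          (ih x (Nat.add y b0) u v (Nat.add p p0))) e) l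

/-- the final values of the counters -/
def sa : List Lv → (ℕ → Bool) → ℕ
  | [], _ => 0
  | e :: l, b => e.a1 * (b 0).toNat + sa l (fun j => b (j + 1))

def sb : List Lv → (ℕ → Bool) → ℕ
  | [], _ => 0
  | e :: l, b => e.b0 * (!b 0).toNat + e.b1 * (b 0).toNat + sb l (fun j => b (j + 1))

def sc : List Lv → (ℕ → Bool) → ℕ
  | [], _ => 0
  | e :: l, b => e.c1 * (b 0).toNat + sc l (fun j => b (j + 1))

def sd : List Lv → (ℕ → Bool) → ℕ
  | [], _ => 0
  | e :: l, b => e.d1 * (b 0).toNat + sd l (fun j => b (j + 1))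

def sp : List Lv → (ℕ → Bool) → ℕ
  | [], _ => 0
  | e :: l, b => e.p0 * (!b 0).toNat + e.p1 * (b 0).toNat + sp l (fun j => b (j + 1))

lemma brec (s t : Bool) : (Bool.rec (motive := fun _ => Bool) false s t : Bool) = (t && s) := by
  cases t <;> rfl

theorem go_sound (leaf : ℕ → ℕ → ℕ → ℕ → ℕ → Bool) (l : List Lv) :
    ∀ x y u v p : ℕ, go leaf l x y u v p = true → ∀ b : ℕ → Bool,
      leaf (x + sa l b) (y + sb l b) (u + sc l b) (v + sd l b) (p + sp l b) = true := by
  induction l with
  | nil =>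
    intro x y u v p h b
    change leaf x y u v p = true at h
    simpa [sa, sb, sc, sd, sp] using h
  | cons e l ih =>
    intro x y u v p h b
    obtain ⟨a1, b0, b1, c1, d1, p0, p1⟩ := e
    change (Bool.rec (motive := fun _ => Bool) false
          (go leaf l (Nat.add x a1) (Nat.add y b1) (Nat.add u c1) (Nat.add v d1) (Nat.add p p1))
          (go leaf l x (Nat.add y b0) u v (Nat.add p p0)) : Bool) = true at h
    rw [brec, Bool.and_eq_true] at h
    cases hb : b 0 with
    | false =>
      have := ih _ _ _ _ _ h.1 (fun j => b (j + 1))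
      simp only [Nat.add_eq] at this
      simp only [sa, sb, sc, sd, sp, hb, Bool.toNat_false, Bool.not_false, Bool.toNat_true,
        Nat.mul_zero, Nat.mul_one, Nat.zero_add, Nat.add_zero]
      rw [Nat.add_assoc, Nat.add_assoc] at this
      exact this
    | true =>
      have := ih _ _ _ _ _ h.2 (fun j => b (j + 1))
      simp only [Nat.add_eq] at this
      simp only [sa, sb, sc, sd, sp, hb, Bool.toNat_false, Bool.not_true, Bool.toNat_true,
        Nat.mul_zero, Nat.mul_one, Nat.zero_add]
      rw [Nat.add_assoc, Nat.add_assoc, Nat.add_assoc, Nat.add_assoc, Nat.add_assoc] at this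
      exact this

end Pool.Agent.E8helper83.FP
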