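import Pool.Agent.E8helper83.FP.Base

/-!
Library E8helper83.FP (helper83): traversal of all windows of 19 terms with five counters.
-/

set_option autoImplicit false

namespace Pool.Agent.E8helper83.FP.B

open Finset

/-- the rows of the tables -/
noncomputable def mid (c TG TH TS TT TB TC : ℕ) (l : List Lv) (x y u v p : ℕ) : Bool :=
  go (leafA (Nat.land (Nat.shiftRight TG x) (mk 4096)) (Nat.land (Nat.shiftRight TH y) (mk 8192))
    (Nat.land (Nat.shiftRight TS u) (mk 512)) (Nat.land (Nat.shiftRight TT v) (mk 128))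
    (Nat.add c (Nat.add (tb TB (Nat.div x 256)) (tb TC (Nat.mul 16 (Nat.div x 32768)))))) l 0 0 0 0 p

/-- shape of the lists of increments, first phase (bits 4 to 9) -/
structure Th1 (f : Bool) (l : List Lv) : Prop where
  a : ∀ b, sa l (fun j => b (j + 4)) = 4096 * idx b [4, 5, 6, 7, 8, 9]
  bb : ∀ b : ℕ → Bool, sb l (fun j => b (j + 4)) = 8192 * idx (fun j => xor (b (j + 1)) f) [3, 4, 5, 6, 7, 8]
  c : ∀ b, sc l (fun j => b (j + 4)) = 512 * idx b [4, 6, 8]
  d : ∀ b, sd l (fun j => b (j + 4)) = 128 * idx b [6, 9]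

/-- shape of the lists of increments, second phase -/
structure Th2 (f : Bool) (l : List Lv) : Prop where
  a : ∀ b, sa l (fun j => b (j + 10)) = 16 * idx b [10, 11, 12, 13, 14, 15, 16, 17]
  bb : ∀ b : ℕ → Bool, sb l (fun j => b (j + 10)) =
    16 * idx (fun j => xor (b (j + 1)) f) [9, 10, 11, 12, 13, 14, 15, 16, 17]
  c : ∀ b, sc l (fun j => b (j + 10)) = 16 * idx b [10, 12, 14, 16, 18]
  d : ∀ b, sd l (fun j => b (j + 10)) = 16 * idx b [12, 15, 18]

/-- left side -/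
def lh (TH TB TC : ℕ) (b : ℕ → Bool) : ℕ :=
  (tb TB (16 * idx b [1, 2, 3, 4, 5, 6, 7, 8, 9]) + tb TC (16 * idx b [1, 2, 3, 4, 5, 6])) +
    tb TH (16 * idx (fun j => xor (b (j + 1)) (b 1)) [1, 2, 3, 4, 5, 6, 7, 8, 9, 10, 11, 12, 13, 14, 15, 16, 17])

/-- right side -/
def rh (TG TS TT : ℕ) (b : ℕ → Bool) : ℕ :=
  tb TG (16 * idx b [1, 2, 3, 4, 5, 6, 7, 8, 9, 10, 11, 12, 13, 14, 15, 16, 17]) +
    (2 * tb TS (16 * idx b [2, 4, 6, 8, 10, 12, 14, 16, 18]) + 3 * tb TT (16 * idx b [3, 6, 9, 12, 15, 18]))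

theorem mid_sound (c TG TH TS TT TB TC p : ℕ) (l : List Lv) (f : Bool) (b : ℕ → Bool) (hf : b 1 = f)
    (hl : Th2 f l)
    (h : mid c TG TH TS TT TB TC l (4096 * idx b [1, 2, 3, 4, 5, 6, 7, 8, 9])
      (8192 * idx (fun j => xor (b (j + 1)) f) [1, 2, 3, 4, 5, 6, 7, 8]) (512 * idx b [2, 4, 6, 8])
      (128 * idx b [3, 6, 9]) p = true) :
    c + lh TH TB TC b ≤ p + sp l (fun j => b (j + 10)) + rh TG TS TT b := by
  unfold mid at h
  have h1 := go_sound _ l 0 0 0 0 p h (fun j => b (j + 10))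
  rw [leafA_iff, hl.a, hl.bb, hl.c, hl.d] at h1
  simp only [Nat.zero_add] at h1
  have i1 := idx_le b [10, 11, 12, 13, 14, 15, 16, 17]
  have i2 := idx_le (fun j => xor (b (j + 1)) f) [9, 10, 11, 12, 13, 14, 15, 16, 17]
  have i3 := idx_le b [10, 12, 14, 16, 18]
  have i4 := idx_le b [12, 15, 18]
  simp only [List.length_cons, List.length_nil] at i1 i2 i3 i4
  rw [tb_row TH _ 8192 _ _ rfl (by omega), tb_row TG _ 4096 _ _ rfl (by omega),
    tb_row TS _ 512 _ _ rfl (by omega), tb_row TT _ 128 _ _ rfl (by omega)] at h1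
  have e2 : Nat.div (4096 * idx b [1, 2, 3, 4, 5, 6, 7, 8, 9]) 256 = 16 * idx b [1, 2, 3, 4, 5, 6, 7, 8, 9] := by
    change (4096 * idx b [1, 2, 3, 4, 5, 6, 7, 8, 9]) / 256 = _
    omega
  have e3 : Nat.mul 16 (Nat.div (4096 * idx b [1, 2, 3, 4, 5, 6, 7, 8, 9]) 32768) = 16 * idx b [1, 2, 3, 4, 5, 6] := by
    change 16 * ((4096 * idx b [1, 2, 3, 4, 5, 6, 7, 8, 9]) / 32768) = _
    have j5 := idx_le b [7, 8, 9]
    have j6 : idx b [1, 2, 3, 4, 5, 6, 7, 8, 9] = 8 * idx b [1, 2, 3, 4, 5, 6] + idx b [7, 8, 9] := by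
      simp only [idx, List.length_cons, List.length_nil]; omega
    simp only [List.length_cons, List.length_nil] at j5
    omega
  simp only [Nat.add_eq] at h1
  rw [e2, e3] at h1
  have f1 : 8192 * idx (fun j => xor (b (j + 1)) f) [1, 2, 3, 4, 5, 6, 7, 8] +
      16 * idx (fun j => xor (b (j + 1)) f) [9, 10, 11, 12, 13, 14, 15, 16, 17] =
      16 * idx (fun j => xor (b (j + 1)) f) [1, 2, 3, 4, 5, 6, 7, 8, 9, 10, 11, 12, 13, 14, 15, 16, 17] := by
    simp only [idx, List.length_cons, List.length_nil]; omega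
  have f2 : 4096 * idx b [1, 2, 3, 4, 5, 6, 7, 8, 9] + 16 * idx b [10, 11, 12, 13, 14, 15, 16, 17] =
      16 * idx b [1, 2, 3, 4, 5, 6, 7, 8, 9, 10, 11, 12, 13, 14, 15, 16, 17] := by
    simp only [idx, List.length_cons, List.length_nil]; omega
  have f3 : 512 * idx b [2, 4, 6, 8] + 16 * idx b [10, 12, 14, 16, 18] =
      16 * idx b [2, 4, 6, 8, 10, 12, 14, 16, 18] := by
    simp only [idx, List.length_cons, List.length_nil]; omega
  have f4 : 128 * idx b [3, 6, 9] + 16 * idx b [12, 15, 18] = 16 * idx b [3, 6, 9, 12, 15, 18] := by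
    simp only [idx, List.length_cons, List.length_nil]; omega
  rw [f1, f2, f3, f4] at h1
  unfold lh rh
  rw [hf, ← Nat.add_assoc c]
  exact h1

/-- the check for the windows with given first bits `f1, f2, f3` -/
noncomputable def chk (c TG TH TS TT TB TC : ℕ) (l1 l2 : List Lv) (x0 y0 z2 z3 p : ℕ) : Bool :=
  go (mid c TG TH TS TT TB TC l2) l1 x0 y0 z2 z3 p

theorem chk_sound (c TG TH TS TT TB TC : ℕ) (l1 l2 : List Lv) (x0 y0 z2 z3 p : ℕ) (f1 f2 f3 : Bool)
    (h1 : Th1 f1 l1) (h2 : Th2 f1 l2)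
    (hx : x0 = 262144 * (f1.toNat * 4 + f2.toNat * 2 + f3.toNat))
    (hy : y0 = 524288 * ((xor f2 f1).toNat * 2 + (xor f3 f1).toNat))
    (hz2 : z2 = 4096 * f2.toNat) (hz3 : z3 = 512 * f3.toNat)
    (h : chk c TG TH TS TT TB TC l1 l2 x0 y0 z2 z3 p = true) (b : ℕ → Bool) (b1 : b 1 = f1) (b2 : b 2 = f2)
    (b3 : b 3 = f3) :
    c + lh TH TB TC b ≤ p + sp l1 (fun j => b (j + 4)) + sp l2 (fun j => b (j + 10)) + rh TG TS TT b := by
  unfold chk at h
  have k1 := go_sound _ l1 _ _ _ _ _ h (fun j => b (j + 4))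
  rw [h1.a, h1.bb, h1.c, h1.d] at k1
  have e1 : x0 + 4096 * idx b [4, 5, 6, 7, 8, 9] = 4096 * idx b [1, 2, 3, 4, 5, 6, 7, 8, 9] := by
    rw [hx]
    simp only [idx, List.length_cons, List.length_nil, b1, b2, b3]; omega
  have e2 : y0 + 8192 * idx (fun j => xor (b (j + 1)) f1) [3, 4, 5, 6, 7, 8] =
      8192 * idx (fun j => xor (b (j + 1)) f1) [1, 2, 3, 4, 5, 6, 7, 8] := by
    rw [hy]
    simp only [idx, List.length_cons, List.length_nil, b2, b3]; omega
  have e3 : z2 + 512 * idx b [4, 6, 8] = 512 * idx b [2, 4, 6, 8] := by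
    rw [hz2]
    simp only [idx, List.length_cons, List.length_nil, b2]; omega
  have e4 : z3 + 128 * idx b [6, 9] = 128 * idx b [3, 6, 9] := by
    rw [hz3]
    simp only [idx, List.length_cons, List.length_nil, b3]; omega
  rw [e1, e2, e3, e4] at k1
  exact mid_sound c TG TH TS TT TB TC _ l2 f1 b b1 h2 k1

end Pool.Agent.E8helper83.FP.B
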