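import Pool.Agent.E8helper83.FP.Base

/-!
Library E8helper83.FP (helper83): traversal of all windows of 19 terms with eight counters.
-/

set_option autoImplicit false

namespace Pool.Agent.E8helper83.FP

open Finset

/-- the increments of the eight counters at one bit -/
structure Lu where
  a1 : ℕ
  b0 : ℕ
  b1 : ℕ
  c2 : ℕ
  c3 : ℕ
  c4 : ℕ
  c5 : ℕ
  c6 : ℕ
  p0 : ℕ
  p1 : ℕ

/-- traversal of all bit strings -/
noncomputable def gu (leaf : ℕ → ℕ → ℕ → ℕ → ℕ → ℕ → ℕ → ℕ → Bool) (l : List Lu) :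
    ℕ → ℕ → ℕ → ℕ → ℕ → ℕ → ℕ → ℕ → Bool :=
  List.rec (motive := fun _ => ℕ → ℕ → ℕ → ℕ → ℕ → ℕ → ℕ → ℕ → Bool) leaf
    (fun e _ ih => Lu.rec (motive := fun _ => ℕ → ℕ → ℕ → ℕ → ℕ → ℕ → ℕ → ℕ → Bool)
      (fun a1 b0 b1 c2 c3 c4 c5 c6 p0 p1 => fun x y u2 u3 u4 u5 u6 p =>
        Bool.rec (motive := fun _ => Bool) false
          (ih (Nat.add x a1) (Nat.add y b1) (Nat.add u2 c2) (Nat.add u3 c3) (Nat.add u4 c4) (Nat.add u5 c5)
            (Nat.add u6 c6) (Nat.add p p1))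
          (ih x (Nat.add y b0) u2 u3 u4 u5 u6 (Nat.add p p0))) e) l

/-- the final value of a counter with increments `z` and `o` at a zero and a one -/
def su (z o : Lu → ℕ) : List Lu → (ℕ → Bool) → ℕ
  | [], _ => 0
  | e :: l, b => z e * (!b 0).toNat + o e * (b 0).toNat + su z o l (fun j => b (j + 1))

/-- the final value of a counter with increment `o` at a one -/
def so (o : Lu → ℕ) : List Lu → (ℕ → Bool) → ℕ
  | [], _ => 0
  | e :: l, b => o e * (b 0).toNat + so o l (fun j => b (j + 1))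

theorem gu_sound (leaf : ℕ → ℕ → ℕ → ℕ → ℕ → ℕ → ℕ → ℕ → Bool) (l : List Lu) :
    ∀ x y u2 u3 u4 u5 u6 p : ℕ, gu leaf l x y u2 u3 u4 u5 u6 p = true → ∀ b : ℕ → Bool,
      leaf (x + so Lu.a1 l b) (y + su Lu.b0 Lu.b1 l b) (u2 + so Lu.c2 l b) (u3 + so Lu.c3 l b)
        (u4 + so Lu.c4 l b) (u5 + so Lu.c5 l b) (u6 + so Lu.c6 l b) (p + su Lu.p0 Lu.p1 l b) = true := by
  induction l with
  | nil =>
    intro x y u2 u3 u4 u5 u6 p h b
    change leaf x y u2 u3 u4 u5 u6 p = true at h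
    simpa [so, su] using h
  | cons e l ih =>
    intro x y u2 u3 u4 u5 u6 p h b
    obtain ⟨a1, b0, b1, c2, c3, c4, c5, c6, p0, p1⟩ := e
    change (Bool.rec (motive := fun _ => Bool) false
          (gu leaf l (Nat.add x a1) (Nat.add y b1) (Nat.add u2 c2) (Nat.add u3 c3) (Nat.add u4 c4)
            (Nat.add u5 c5) (Nat.add u6 c6) (Nat.add p p1))
          (gu leaf l x (Nat.add y b0) u2 u3 u4 u5 u6 (Nat.add p p0)) : Bool) = true at h
    rw [brec, Bool.and_eq_true] at h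
    cases hb : b 0 with
    | false =>
      have := ih _ _ _ _ _ _ _ _ h.1 (fun j => b (j + 1))
      simp only [Nat.add_eq] at this
      simp only [so, su, hb, Bool.toNat_false, Bool.not_false, Bool.toNat_true,
        Nat.mul_zero, Nat.mul_one, Nat.zero_add, Nat.add_zero]
      simpa only [Nat.add_assoc] using this
    | true =>
      have := ih _ _ _ _ _ _ _ _ h.2 (fun j => b (j + 1))
      simp only [Nat.add_eq] at this
      simp only [so, su, hb, Bool.toNat_false, Bool.not_true, Bool.toNat_true,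
        Nat.mul_zero, Nat.mul_one, Nat.zero_add]
      simpa only [Nat.add_assoc] using this

/-- the inequality at a window -/
def leafU (R1 R2 S2 S3 S4 S5 S6 lhs x y u2 u3 u4 u5 u6 p : ℕ) : Bool :=
  Nat.ble (Nat.add lhs (tb R2 y))
    (Nat.add p (Nat.add (tb R1 x) (Nat.add (tb S2 u2) (Nat.add (tb S3 u3) (Nat.add (tb S4 u4)
      (Nat.add (tb S5 u5) (tb S6 u6)))))))

/-- the rows of the tables -/
noncomputable def midU (c G B2 B3 B4 B5 B6 : ℕ) (l : List Lu) (x y u2 u3 u4 u5 u6 p : ℕ) : Bool :=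
  gu (leafU (Nat.land (Nat.shiftRight G x) (mk 4096)) (Nat.land (Nat.shiftRight G y) (mk 8192))
    (Nat.land (Nat.shiftRight B2 u2) (mk 512)) (Nat.land (Nat.shiftRight B3 u3) (mk 128))
    (Nat.land (Nat.shiftRight B4 u4) (mk 64)) (Nat.land (Nat.shiftRight B5 u5) (mk 64))
    (Nat.land (Nat.shiftRight B6 u6) (mk 64))
    (Nat.add c (Nat.add (tb B2 (Nat.div x 256)) (Nat.add (tb B3 (Nat.mul 16 (Nat.div x 32768)))
      (Nat.add (tb B4 (Nat.mul 16 (Nat.div x 131072))) (Nat.add (tb B5 (Nat.mul 16 (Nat.div x 262144)))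
        (tb B6 (Nat.mul 16 (Nat.div x 262144))))))))) l 0 0 0 0 0 0 0 p

lemma leafU_iff (R1 R2 S2 S3 S4 S5 S6 lhs x y u2 u3 u4 u5 u6 p : ℕ) :
    leafU R1 R2 S2 S3 S4 S5 S6 lhs x y u2 u3 u4 u5 u6 p = true ↔
    lhs + tb R2 y ≤ p + (tb R1 x + (tb S2 u2 + (tb S3 u3 + (tb S4 u4 + (tb S5 u5 + tb S6 u6))))) := by
  unfold leafU
  rw [Nat.ble_eq]
  rfl

/-- shape of the lists of increments, second phase -/
structure Th2 (f : Bool) (l : List Lu) : Prop where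
  a : ∀ b, so Lu.a1 l (fun j => b (j + 10)) = 16 * idx b [10, 11, 12, 13, 14, 15, 16, 17]
  bb : ∀ b : ℕ → Bool, su Lu.b0 Lu.b1 l (fun j => b (j + 10)) =
    16 * idx (fun j => xor (b (j + 1)) f) [9, 10, 11, 12, 13, 14, 15, 16, 17]
  c2 : ∀ b, so Lu.c2 l (fun j => b (j + 10)) = 16 * idx b [10, 12, 14, 16, 18]
  c3 : ∀ b, so Lu.c3 l (fun j => b (j + 10)) = 16 * idx b [12, 15, 18]
  c4 : ∀ b, so Lu.c4 l (fun j => b (j + 10)) = 16 * idx b [12, 16]
  c5 : ∀ b, so Lu.c5 l (fun j => b (j + 10)) = 16 * idx b [10, 15]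
  c6 : ∀ b, so Lu.c6 l (fun j => b (j + 10)) = 16 * idx b [12, 18]

/-- shape of the lists of increments, first phase (bits 4 to 9) -/
structure Th1 (f : Bool) (l : List Lu) : Prop where
  a : ∀ b, so Lu.a1 l (fun j => b (j + 4)) = 4096 * idx b [4, 5, 6, 7, 8, 9]
  bb : ∀ b : ℕ → Bool, su Lu.b0 Lu.b1 l (fun j => b (j + 4)) =
    8192 * idx (fun j => xor (b (j + 1)) f) [3, 4, 5, 6, 7, 8]
  c2 : ∀ b, so Lu.c2 l (fun j => b (j + 4)) = 512 * idx b [4, 6, 8]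
  c3 : ∀ b, so Lu.c3 l (fun j => b (j + 4)) = 128 * idx b [6, 9]
  c4 : ∀ b, so Lu.c4 l (fun j => b (j + 4)) = 64 * idx b [4, 8]
  c5 : ∀ b, so Lu.c5 l (fun j => b (j + 4)) = 64 * idx b [5]
  c6 : ∀ b, so Lu.c6 l (fun j => b (j + 4)) = 64 * idx b [6]

/-- left side of the inequality -/
def lhU (G B2 B3 B4 B5 B6 : ℕ) (b : ℕ → Bool) : ℕ :=
  (tb B2 (16 * idx b [1, 2, 3, 4, 5, 6, 7, 8, 9]) + (tb B3 (16 * idx b [1, 2, 3, 4, 5, 6]) +
    (tb B4 (16 * idx b [1, 2, 3, 4]) + (tb B5 (16 * idx b [1, 2, 3]) + tb B6 (16 * idx b [1, 2, 3]))))) +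
    tb G (16 * idx (fun j => xor (b (j + 1)) (b 1)) [1, 2, 3, 4, 5, 6, 7, 8, 9, 10, 11, 12, 13, 14, 15, 16, 17])

/-- tables on the right side of the inequality -/
def rhU (G B2 B3 B4 B5 B6 : ℕ) (b : ℕ → Bool) : ℕ :=
  tb G (16 * idx b [1, 2, 3, 4, 5, 6, 7, 8, 9, 10, 11, 12, 13, 14, 15, 16, 17]) +
    (tb B2 (16 * idx b [2, 4, 6, 8, 10, 12, 14, 16, 18]) + (tb B3 (16 * idx b [3, 6, 9, 12, 15, 18]) +
      (tb B4 (16 * idx b [4, 8, 12, 16]) + (tb B5 (16 * idx b [5, 10, 15]) + tb B6 (16 * idx b [6, 12, 18])))))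

theorem midU_sound (c G B2 B3 B4 B5 B6 p : ℕ) (l : List Lu) (f : Bool) (b : ℕ → Bool) (hf : b 1 = f)
    (hl : Th2 f l)
    (h : midU c G B2 B3 B4 B5 B6 l (4096 * idx b [1, 2, 3, 4, 5, 6, 7, 8, 9])
      (8192 * idx (fun j => xor (b (j + 1)) f) [1, 2, 3, 4, 5, 6, 7, 8]) (512 * idx b [2, 4, 6, 8])
      (128 * idx b [3, 6, 9]) (64 * idx b [4, 8]) (64 * idx b [5]) (64 * idx b [6]) p = true) :
    c + lhU G B2 B3 B4 B5 B6 b ≤ p + su Lu.p0 Lu.p1 l (fun j => b (j + 10)) + rhU G B2 B3 B4 B5 B6 b := by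
  unfold midU at h
  have h1 := gu_sound _ l 0 0 0 0 0 0 0 p h (fun j => b (j + 10))
  rw [leafU_iff, hl.a, hl.bb, hl.c2, hl.c3, hl.c4, hl.c5, hl.c6] at h1
  simp only [Nat.zero_add] at h1
  have i1 := idx_le b [10, 11, 12, 13, 14, 15, 16, 17]
  have i2 := idx_le (fun j => xor (b (j + 1)) f) [9, 10, 11, 12, 13, 14, 15, 16, 17]
  have i3 := idx_le b [10, 12, 14, 16, 18]
  have i4 := idx_le b [12, 15, 18]
  have i5 := idx_le b [12, 16]
  have i6 := idx_le b [10, 15]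
  have i7 := idx_le b [12, 18]
  simp only [List.length_cons, List.length_nil] at i1 i2 i3 i4 i5 i6 i7
  rw [tb_row G _ 8192 _ _ rfl (by omega), tb_row G _ 4096 _ _ rfl (by omega),
    tb_row B2 _ 512 _ _ rfl (by omega), tb_row B3 _ 128 _ _ rfl (by omega),
    tb_row B4 _ 64 _ _ rfl (by omega), tb_row B5 _ 64 _ _ rfl (by omega),
    tb_row B6 _ 64 _ _ rfl (by omega)] at h1
  have e2 : Nat.div (4096 * idx b [1, 2, 3, 4, 5, 6, 7, 8, 9]) 256 = 16 * idx b [1, 2, 3, 4, 5, 6, 7, 8, 9] := by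
    change (4096 * idx b [1, 2, 3, 4, 5, 6, 7, 8, 9]) / 256 = _
    omega
  have e3 : Nat.mul 16 (Nat.div (4096 * idx b [1, 2, 3, 4, 5, 6, 7, 8, 9]) 32768) = 16 * idx b [1, 2, 3, 4, 5, 6] := by
    change 16 * ((4096 * idx b [1, 2, 3, 4, 5, 6, 7, 8, 9]) / 32768) = _
    have j5 := idx_le b [7, 8, 9]
    have j6 : idx b [1, 2, 3, 4, 5, 6, 7, 8, 9] = 8 * idx b [1, 2, 3, 4, 5, 6] + idx b [7, 8, 9] := by
      simp only [idx, List.length_cons, List.length_nil]; omega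
    simp only [List.length_cons, List.length_nil] at j5
    omega
  have e4 : Nat.mul 16 (Nat.div (4096 * idx b [1, 2, 3, 4, 5, 6, 7, 8, 9]) 131072) = 16 * idx b [1, 2, 3, 4] := by
    change 16 * ((4096 * idx b [1, 2, 3, 4, 5, 6, 7, 8, 9]) / 131072) = _
    have j5 := idx_le b [5, 6, 7, 8, 9]
    have j6 : idx b [1, 2, 3, 4, 5, 6, 7, 8, 9] = 32 * idx b [1, 2, 3, 4] + idx b [5, 6, 7, 8, 9] := by
      simp only [idx, List.length_cons, List.length_nil]; omega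
    simp only [List.length_cons, List.length_nil] at j5
    omega
  have e5 : Nat.mul 16 (Nat.div (4096 * idx b [1, 2, 3, 4, 5, 6, 7, 8, 9]) 262144) = 16 * idx b [1, 2, 3] := by
    change 16 * ((4096 * idx b [1, 2, 3, 4, 5, 6, 7, 8, 9]) / 262144) = _
    have j5 := idx_le b [4, 5, 6, 7, 8, 9]
    have j6 : idx b [1, 2, 3, 4, 5, 6, 7, 8, 9] = 64 * idx b [1, 2, 3] + idx b [4, 5, 6, 7, 8, 9] := by
      simp only [idx, List.length_cons, List.length_nil]; omega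
    simp only [List.length_cons, List.length_nil] at j5
    omega
  simp only [Nat.add_eq] at h1
  rw [e2, e3, e4, e5] at h1
  have f1 : 8192 * idx (fun j => xor (b (j + 1)) f) [1, 2, 3, 4, 5, 6, 7, 8] +
      16 * idx (fun j => xor (b (j + 1)) f) [9, 10, 11, 12, 13, 14, 15, 16, 17] =
      16 * idx (fun j => xor (b (j + 1)) f) [1, 2, 3, 4, 5, 6, 7, 8, 9, 10, 11, 12, 13, 14, 15, 16, 17] := by
    simp only [idx, List.length_cons, List.length_nil]; omega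
  have f2 : 4096 * idx b [1, 2, 3, 4, 5, 6, 7, 8, 9] + 16 * idx b [10, 11, 12, 13, 14, 15, 16, 17] =
      16 * idx b [1, 2, 3, 4, 5, 6, 7, 8, 9, 10, 11, 12, 13, 14, 15, 16, 17] := by
    simp only [idx, List.length_cons, List.length_nil]; omega
  have f3 : 512 * idx b [2, 4, 6, 8] + 16 * idx b [10, 12, 14, 16, 18] =
      16 * idx b [2, 4, 6, 8, 10, 12, 14, 16, 18] := by
    simp only [idx, List.length_cons, List.length_nil]; omega
  have f4 : 128 * idx b [3, 6, 9] + 16 * idx b [12, 15, 18] = 16 * idx b [3, 6, 9, 12, 15, 18] := by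
    simp only [idx, List.length_cons, List.length_nil]; omega
  have f5 : 64 * idx b [4, 8] + 16 * idx b [12, 16] = 16 * idx b [4, 8, 12, 16] := by
    simp only [idx, List.length_cons, List.length_nil]; omega
  have f6 : 64 * idx b [5] + 16 * idx b [10, 15] = 16 * idx b [5, 10, 15] := by
    simp only [idx, List.length_cons, List.length_nil]; omega
  have f7 : 64 * idx b [6] + 16 * idx b [12, 18] = 16 * idx b [6, 12, 18] := by
    simp only [idx, List.length_cons, List.length_nil]; omega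
  rw [f1, f2, f3, f4, f5, f6, f7] at h1
  unfold lhU rhU
  rw [hf, ← Nat.add_assoc c]
  exact h1

/-- the check for the windows with given first bits `f1, f2, f3`: counters `x0, y0, z2, z3, p` -/
noncomputable def chkU (c G B2 B3 B4 B5 B6 : ℕ) (l1 l2 : List Lu) (x0 y0 z2 z3 p : ℕ) : Bool :=
  gu (midU c G B2 B3 B4 B5 B6 l2) l1 x0 y0 z2 z3 0 0 0 p

theorem chkU_sound (c G B2 B3 B4 B5 B6 : ℕ) (l1 l2 : List Lu) (x0 y0 z2 z3 p : ℕ) (f1 f2 f3 : Bool)
    (h1 : Th1 f1 l1) (h2 : Th2 f1 l2)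
    (hx : x0 = 262144 * (f1.toNat * 4 + f2.toNat * 2 + f3.toNat))
    (hy : y0 = 524288 * ((xor f2 f1).toNat * 2 + (xor f3 f1).toNat))
    (hz2 : z2 = 4096 * f2.toNat) (hz3 : z3 = 512 * f3.toNat)
    (h : chkU c G B2 B3 B4 B5 B6 l1 l2 x0 y0 z2 z3 p = true) (b : ℕ → Bool) (b1 : b 1 = f1) (b2 : b 2 = f2)
    (b3 : b 3 = f3) :
    c + lhU G B2 B3 B4 B5 B6 b ≤ p + su Lu.p0 Lu.p1 l1 (fun j => b (j + 4)) +
      su Lu.p0 Lu.p1 l2 (fun j => b (j + 10)) + rhU G B2 B3 B4 B5 B6 b := by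
  unfold chkU at h
  have k1 := gu_sound _ l1 _ _ _ _ _ _ _ _ h (fun j => b (j + 4))
  rw [h1.a, h1.bb, h1.c2, h1.c3, h1.c4, h1.c5, h1.c6] at k1
  have e1 : x0 + 4096 * idx b [4, 5, 6, 7, 8, 9] = 4096 * idx b [1, 2, 3, 4, 5, 6, 7, 8, 9] := by
    rw [hx]
    simp only [idx, List.length_cons, List.length_nil, b1, b2, b3]; omega
  have e2 : y0 + 8192 * idx (fun j => xor (b (j + 1)) f1) [3, 4, 5, 6, 7, 8] =
      8192 * idx (fun j => xor (b (j + 1)) f1) [1, 2, 3, 4, 5, 6, 7, 8] := by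
    rw [hy]
    simp only [idx, List.length_cons, List.length_nil, b2, b3]; omega
  have e3 : z2 + 512 * idx b [4, 6, 8] = 512 * idx b [2, 4, 6, 8] := by
    rw [hz2]
    simp only [idx, List.length_cons, List.length_nil, b2]; omega
  have e4 : z3 + 128 * idx b [6, 9] = 128 * idx b [3, 6, 9] := by
    rw [hz3]
    simp only [idx, List.length_cons, List.length_nil, b3]; omega
  rw [e1, e2, e3, e4, Nat.zero_add, Nat.zero_add, Nat.zero_add] at k1
  exact midU_sound c G B2 B3 B4 B5 B6 _ l2 f1 b b1 h2 k1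

end Pool.Agent.E8helper83.FP
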