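import Pool.Agent.Y958.TC.Two
import Pool.Agent.Y304.U.Avc
import Pool.Agent.Y304.U.Pw
import Pool.Agent.Y958.U.Diag

/-!
Library E8helper83.FP (helper83): logarithmic sums of pair correlations, shifts and dilations.
-/

set_option autoImplicit false

namespace Pool.Agent.E8helper83.FP

open Finset Filter Topology
open Pool.Agent.TH823.MRS (lam_bdd lam_flip expo_lam)
open Pool.Agent.H376R2.MR (lam)
open Pool.Agent.Y958.TC (Av)
open Pool.Agent.Y958.U (LZ ls li ls_eq li_mem li_not abel_log LZ_iff S_AVC)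

theorem s_avc : S_AVC := Pool.Agent.Y304.U.avc Pool.Agent.Y304.U.pw

lemma harm (X : ℕ) : ∑ N ∈ Icc 1 X, (1 : ℝ) / N ≤ 1 + Real.log X := by
  have h9 : ∑ i ∈ Icc 1 X, (1 : ℝ) / i = ((harmonic X : ℚ) : ℝ) := by
    rw [harmonic_eq_sum_Icc]
    push_cast
    apply sum_congr rfl
    intro i _
    rw [one_div]
  rw [h9]
  exact harmonic_le_one_add_log X

lemma tele (X : ℕ) : ∑ N ∈ Icc 1 X, (1 : ℝ) / ((N : ℝ) * (N + 1)) ≤ 1 := by
  have h : ∀ X : ℕ, ∑ N ∈ Icc 1 X, (1 : ℝ) / ((N : ℝ) * (N + 1)) = 1 - 1 / ((X : ℝ) + 1) := by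
    intro X
    induction X with
    | zero => simp
    | succ X ih =>
      rw [sum_Icc_succ_top (by omega), ih]
      push_cast
      have h1 : (X : ℝ) + 1 ≠ 0 := by positivity
      have h2 : (X : ℝ) + 1 + 1 ≠ 0 := by positivity
      field_simp
      ring
  rw [h]
  have : 0 < 1 / ((X : ℝ) + 1) := by positivity
  linarith

lemma log_atTop' : Tendsto (fun X : ℕ => Real.log X) atTop atTop :=
  Real.tendsto_log_atTop.comp tendsto_natCast_atTop_atTop

/-- small means at almost all scales give a small logarithmic mean -/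
lemma log_small (F : ℕ → ℝ) (hF : ∀ n, |F n| ≤ 1) (E : Set ℕ) (hE : LZ E) (δ : ℝ) (hδ : 0 < δ)
    (h : ∀ N : ℕ, N ∉ E → |∑ n ∈ Icc 1 N, F n| ≤ δ * N + 2) :
    ∃ X₀ : ℕ, ∀ X : ℕ, X₀ ≤ X → |∑ n ∈ Icc 1 X, F n / n| ≤ 3 * δ * Real.log X := by
  classical
  obtain ⟨X₁, hX₁⟩ := (LZ_iff _).1 hE δ hδ
  obtain ⟨X₂, hX₂⟩ := eventually_atTop.1 (log_atTop'.eventually_ge_atTop ((δ + 3) / δ))
  refine ⟨X₁ + X₂ + 2, fun X hX => ?_⟩
  have h1 := hX₁ X (by omega)
  have h2 := hX₂ X (by omega)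
  rw [div_le_iff₀ hδ] at h2
  have hS : ∀ N : ℕ, |∑ n ∈ Icc 1 N, F n| ≤ N := by
    intro N
    refine (abs_sum_le_sum_abs _ _).trans ((sum_le_sum fun k _ => hF _).trans (le_of_eq ?_))
    simp
  rw [abel_log]
  have h3 : |(∑ n ∈ Icc 1 X, F n) / ((X : ℝ) + 1)| ≤ 1 := by
    rw [abs_div, abs_of_pos (by positivity : (0 : ℝ) < (X : ℝ) + 1), div_le_one (by positivity)]
    have := hS X
    linarith
  have h4 : |∑ N ∈ Icc 1 X, (∑ n ∈ Icc 1 N, F n) * (1 / ((N : ℝ) * (N + 1)))| ≤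
      δ * (1 + Real.log X) + 2 * 1 + ls E X := by
    refine (abs_sum_le_sum_abs _ _).trans ?_
    have h5 : ∀ N ∈ Icc 1 X, |(∑ n ∈ Icc 1 N, F n) * (1 / ((N : ℝ) * (N + 1)))| ≤
        δ * (1 / (N : ℝ)) + 2 * (1 / ((N : ℝ) * (N + 1))) + li E N := by
      intro N hN
      rw [mem_Icc] at hN
      have hN0 : (0 : ℝ) < N := by exact_mod_cast (by omega : 0 < N)
      have e1 : (0 : ℝ) < 1 / ((N : ℝ) * (N + 1)) := by positivity
      rw [abs_mul, abs_of_pos e1]
      have e2 : (N : ℝ) * (1 / ((N : ℝ) * (N + 1))) ≤ 1 / N := by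
        rw [mul_one_div, div_le_div_iff₀ (by positivity) hN0]
        nlinarith
      by_cases hNE : N ∈ E
      · rw [li_mem hNE]
        have : |∑ n ∈ Icc 1 N, F n| * (1 / ((N : ℝ) * (N + 1))) ≤ N * (1 / ((N : ℝ) * (N + 1))) :=
          mul_le_mul_of_nonneg_right (hS N) e1.le
        have h6 : 0 ≤ δ * (1 / (N : ℝ)) := by positivity
        linarith
      · rw [li_not hNE, add_zero]
        have h8 := mul_le_mul_of_nonneg_right (h N hNE) e1.le
        have h9 : δ * ((N : ℝ) * (1 / ((N : ℝ) * (N + 1)))) ≤ δ * (1 / N) :=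
          mul_le_mul_of_nonneg_left e2 hδ.le
        linarith
    refine (sum_le_sum h5).trans ?_
    rw [sum_add_distrib, sum_add_distrib, ← mul_sum, ← mul_sum, ls_eq]
    apply add_le_add _ le_rfl
    apply add_le_add
    · exact mul_le_mul_of_nonneg_left (harm X) hδ.le
    · exact mul_le_mul_of_nonneg_left (tele X) (by norm_num)
  refine (abs_add_le _ _).trans ?_
  nlinarith

lemma lam_abs (n : ℕ) : |((lam n : ℤ) : ℝ)| = 1 := by
  unfold Pool.Agent.H376R2.MR.lam
  push_cast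
  rw [abs_pow, abs_neg, abs_one, one_pow]

/-- the two-point theorem, logarithmic means, periodic weights -/
theorem two_log (h : ℕ) (hh : 1 ≤ h) (q : ℕ) (hq : 1 ≤ q) (w : ℕ → ℝ) (hw1 : ∀ n, |w n| ≤ 1)
    (hwq : ∀ n, w (n + q) = w n) (δ : ℝ) (hδ : 0 < δ) :
    ∃ X₀ : ℕ, ∀ X : ℕ, X₀ ≤ X →
      |∑ n ∈ Icc 1 X, (w n * (lam n : ℤ) * (lam (n + h) : ℤ)) / n| ≤ δ * Real.log X := by
  have h1 := Pool.Agent.Y958.TC.two s_avc lam lam_bdd lam_flip expo_lam h hh q hq w hw1 hwq (δ / 3)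
    (by positivity)
  set F : ℕ → ℝ := fun n => w n * (lam n : ℤ) * (lam (n + h) : ℤ) with hF
  have hF1 : ∀ n, |F n| ≤ 1 := by
    intro n
    rw [hF]
    simp only
    rw [abs_mul, abs_mul, lam_abs, lam_abs, mul_one, mul_one]
    exact hw1 n
  obtain ⟨X₀, hX₀⟩ := log_small F hF1 _ h1 (δ / 3) (by positivity) (by
    intro N hN
    rw [Set.mem_ofPred_eq, not_lt] at hN
    rcases Nat.eq_zero_or_pos N with h0 | hpos
    · subst h0
      simp
    have hNr : (0 : ℝ) < N := by exact_mod_cast hpos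
    unfold Pool.Agent.Y958.TC.Av at hN
    rw [abs_div, abs_of_pos hNr, div_le_iff₀ hNr] at hN
    have h2 : ∑ n ∈ Icc 1 N, F n = ∑ n ∈ range N, F n + F N - F 0 := by
      rw [← sum_range_succ, sum_range_succ', add_sub_cancel_right]
      rw [range_eq_Ico, sum_Ico_add' F 0 N 1]
      apply sum_congr _ fun _ _ => rfl
      ext n
      simp only [mem_Ico, mem_Icc]
      omega
    rw [h2]
    have h3 := abs_sub (∑ n ∈ range N, F n + F N) (F 0)
    have h4 := abs_add_le (∑ n ∈ range N, F n) (F N)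
    have h5 := hF1 N
    have h6 := hF1 0
    linarith)
  refine ⟨X₀, fun X hX => (hX₀ X hX).trans (le_of_eq (by ring))⟩

/-- the shift by one -/
lemma shift_one (F : ℕ → ℝ) (C : ℝ) (hF : ∀ n, |F n| ≤ C) (X : ℕ) :
    |∑ n ∈ Icc 1 X, (F n - F (n + 1)) / n| ≤ 2 * C := by
  have hC : 0 ≤ C := (abs_nonneg _).trans (hF 0)
  have key : ∀ X : ℕ, 1 ≤ X → |∑ n ∈ Icc 1 X, (F n - F (n + 1)) / n + F (X + 1) / X| ≤ 2 * C - C / X := by
    intro X hX
    induction X, hX using Nat.le_induction with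
    | base =>
      simp only [Icc_self, sum_singleton, Nat.cast_one, div_one]
      rw [sub_add_cancel]
      have := hF 1
      linarith
    | succ X hX ih =>
      rw [sum_Icc_succ_top (by omega)]
      have hX0 : (0 : ℝ) < X := by exact_mod_cast (by omega : 0 < X)
      have e1 : ∑ n ∈ Icc 1 X, (F n - F (n + 1)) / n + (F (X + 1) - F (X + 1 + 1)) / ((X + 1 : ℕ) : ℝ) +
          F (X + 1 + 1) / ((X + 1 : ℕ) : ℝ) = (∑ n ∈ Icc 1 X, (F n - F (n + 1)) / n + F (X + 1) / X) -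
          F (X + 1) * (1 / X - 1 / (X + 1)) := by
        push_cast
        field_simp
        ring
      rw [e1]
      have e2 : |F (X + 1) * (1 / X - 1 / (X + 1))| ≤ C * (1 / X - 1 / (X + 1)) := by
        have : (0 : ℝ) ≤ 1 / X - 1 / (X + 1) := by
          rw [sub_nonneg]
          exact one_div_le_one_div_of_le hX0 (by linarith)
        rw [abs_mul, abs_of_nonneg this]
        exact mul_le_mul_of_nonneg_right (hF _) this
      refine (abs_sub _ _).trans ?_
      push_cast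
      have e3 : C / (X : ℝ) = C * (1 / X) := by ring
      have e4 : C / ((X : ℝ) + 1) = C * (1 / (X + 1)) := by ring
      rw [e3] at ih
      rw [e4]
      nlinarith
  rcases Nat.eq_zero_or_pos X with h0 | hpos
  · subst h0
    simp
    exact hC
  have h1 := key X hpos
  have hX0 : (0 : ℝ) < X := by exact_mod_cast hpos
  have h2 : |F (X + 1) / X| ≤ C / X := by
    rw [abs_div, abs_of_pos hX0]
    exact div_le_div_of_nonneg_right (hF _) hX0.le
  have h3 := abs_sub (∑ n ∈ Icc 1 X, (F n - F (n + 1)) / n + F (X + 1) / X) (F (X + 1) / X)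
  rw [add_sub_cancel_right] at h3
  linarith

/-- shifts -/
lemma shift_log (F : ℕ → ℝ) (C : ℝ) (hF : ∀ n, |F n| ≤ C) (d X : ℕ) :
    |∑ n ∈ Icc 1 X, (F n - F (n + d)) / n| ≤ 2 * C * d := by
  induction d with
  | zero => simp
  | succ d ih =>
    have h1 := shift_one (fun n => F (n + d)) C (fun n => hF _) X
    have h2 : ∑ n ∈ Icc 1 X, (F n - F (n + (d + 1))) / n =
        ∑ n ∈ Icc 1 X, (F n - F (n + d)) / n + ∑ n ∈ Icc 1 X, (F (n + d) - F (n + 1 + d)) / n := by
      rw [← sum_add_distrib]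
      apply sum_congr rfl
      intro n _
      have : n + (d + 1) = n + 1 + d := by ring
      rw [this]
      ring
    rw [h2]
    refine (abs_add_le _ _).trans ?_
    push_cast
    linarith

/-- dilations -/
lemma dil_log (p : ℕ) (hp : 1 ≤ p) (B : ℕ → ℝ) (C : ℝ) (hB : ∀ n, |B n| ≤ C) (X : ℕ) :
    |∑ n ∈ Icc 1 X, ((if p ∣ n then p * B (n / p) else 0) - B n) / n| ≤ C * p := by
  have hC : 0 ≤ C := (abs_nonneg _).trans (hB 0)
  have hp0 : (0 : ℝ) < p := by exact_mod_cast (by omega : 0 < p)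
  have h1 : ∑ n ∈ Icc 1 X, (if p ∣ n then p * B (n / p) else 0) / (n : ℝ) =
      ∑ m ∈ Icc 1 (X / p), B m / m := by
    symm
    rw [← sum_filter_add_sum_filter_not (Icc 1 X) (fun n => p ∣ n)]
    have hz : ∑ x ∈ (Icc 1 X).filter (fun n => ¬ p ∣ n), (if p ∣ x then p * B (x / p) else 0) / (x : ℝ) = 0 := by
      apply sum_eq_zero
      intro x hx
      rw [if_neg (mem_filter.1 hx).2, zero_div]
    rw [hz, add_zero]
    refine sum_bij (fun m _ => p * m) ?_ ?_ ?_ ?_
    · intro m hm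
      rw [mem_Icc] at hm
      rw [mem_filter, mem_Icc]
      refine ⟨⟨Nat.one_le_iff_ne_zero.2 (Nat.mul_ne_zero (by omega) (by omega)), ?_⟩, dvd_mul_right _ _⟩
      calc p * m ≤ p * (X / p) := Nat.mul_le_mul_left _ hm.2
        _ ≤ X := Nat.mul_div_le X p
    · intro a _ b _ hab
      exact Nat.eq_of_mul_eq_mul_left (by omega) hab
    · intro n hn
      rw [mem_filter, mem_Icc] at hn
      obtain ⟨k, rfl⟩ := hn.2
      refine ⟨k, ?_, rfl⟩
      rw [mem_Icc]
      constructor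
      · apply Nat.one_le_iff_ne_zero.2
        rintro rfl
        omega
      · rw [Nat.le_div_iff_mul_le (by omega)]
        have := hn.1.2
        linarith [mul_comm k p]
    · intro m hm
      rw [mem_Icc] at hm
      rw [if_pos (dvd_mul_right p m), Nat.mul_div_cancel_left m (by omega)]
      push_cast
      have hm0 : (0 : ℝ) < m := by exact_mod_cast (by omega : 0 < m)
      field_simp
  have h2 : ∑ n ∈ Icc 1 X, ((if p ∣ n then p * B (n / p) else 0) - B n) / n =
      ∑ m ∈ Icc 1 (X / p), B m / m - ∑ n ∈ Icc 1 X, B n / n := by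
    rw [← h1, ← sum_sub_distrib]
    apply sum_congr rfl
    intro n _
    ring
  rw [h2]
  have hsub : Icc 1 (X / p) ⊆ Icc 1 X := Icc_subset_Icc_right (Nat.div_le_self _ _)
  rw [abs_sub_comm, ← sum_sdiff hsub, add_sub_cancel_right]
  refine (abs_sum_le_sum_abs _ _).trans ?_
  rcases Nat.eq_zero_or_pos X with h0 | hX
  · subst h0
    simp
    positivity
  have hX0 : (0 : ℝ) < X := by exact_mod_cast hX
  have h3 : ∀ n ∈ Icc 1 X \ Icc 1 (X / p), |B n / n| ≤ C * p / X := by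
    intro n hn
    rw [Finset.mem_sdiff, mem_Icc, mem_Icc] at hn
    have hn0 : (0 : ℝ) < n := by exact_mod_cast (by omega : 0 < n)
    have h4 : X / p < n := by
      by_contra hcon
      exact hn.2 ⟨hn.1.1, not_lt.1 hcon⟩
    have h5 : X < n * p := (Nat.div_lt_iff_lt_mul (by omega)).1 h4
    have h6 : (X : ℝ) ≤ n * p := by exact_mod_cast h5.le
    rw [abs_div, abs_of_pos hn0, div_le_div_iff₀ hn0 hX0]
    calc |B n| * X ≤ C * (n * p) := mul_le_mul (hB n) h6 hX0.le hC
      _ = C * p * n := by ring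
  refine (sum_le_sum h3).trans ?_
  rw [sum_const, nsmul_eq_mul]
  have h7 : ((Icc 1 X \ Icc 1 (X / p)).card : ℝ) ≤ X := by
    have := card_le_card (sdiff_subset : Icc 1 X \ Icc 1 (X / p) ⊆ Icc 1 X)
    rw [Nat.card_Icc] at this
    exact_mod_cast (by omega : (Icc 1 X \ Icc 1 (X / p)).card ≤ X)
  calc ((Icc 1 X \ Icc 1 (X / p)).card : ℝ) * (C * p / X) ≤ X * (C * p / X) :=
        mul_le_mul_of_nonneg_right h7 (by positivity)
    _ = C * p := by field_simp

end Pool.Agent.E8helper83.FP
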