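import Pool.Agent.E8helper83.FP.Bits
import Pool.Agent.E8helper83.FP.CheckB0
import Pool.Agent.E8helper83.FP.CheckB1
import Pool.Agent.E8helper83.FP.CheckB2
import Pool.Agent.E8helper83.FP.CheckB3
import Pool.Agent.E8helper83.FP.CheckB4
import Pool.Agent.E8helper83.FP.CheckB5
import Pool.Agent.E8helper83.FP.LogSum

/-!
Library E8helper83.FP (helper83): the logarithmically averaged four-term sums of the Liouville
function along progressions whose difference is coprime to six.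
-/

set_option autoImplicit false

namespace Pool.Agent.E8helper83.FP.B

open Finset Filter Topology
open Pool.Agent.H376R2.MR (lam)

/-- the coefficients of the pair terms -/
def alA (r j : ℕ) : ℤ :=
  match r with
  | 0 => al0 j
  | 1 => al1 j
  | 2 => al2 j
  | 3 => al3 j
  | 4 => al4 j
  | _ => al5 j

/-- tables -/
noncomputable def GA : ℕ → ℕ
  | 0 => G0
  | 1 => G1
  | 2 => G2
  | 3 => G3
  | 4 => G4
  | _ => G5

/-- tables -/
noncomputable def PA : ℕ → ℕ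
  | 0 => P0
  | 1 => P1
  | _ => P2

/-- tables -/
noncomputable def QA : ℕ → ℕ
  | 0 => Q0
  | _ => Q1

/-- the potential of the shifts -/
noncomputable def gaA (x : ℕ → ℤ) (d n : ℕ) : ℤ :=
  tb (GA (n * d % 6)) (16 * idx (bt x n d) [1, 2, 3, 4, 5, 6, 7, 8, 9, 10, 11, 12, 13, 14, 15, 16, 17])

/-- the potential of the dilation by `2` -/
noncomputable def b2A (x : ℕ → ℤ) (d n : ℕ) : ℤ :=
  (tb (PA (n * d % 3)) (16 * idx (bt x n d) [1, 2, 3, 4, 5, 6, 7, 8, 9]) : ℤ) - 4872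

/-- the potential of the dilation by `3` -/
noncomputable def b3A (x : ℕ → ℤ) (d n : ℕ) : ℤ :=
  (tb (QA (n * d % 2)) (16 * idx (bt x n d) [1, 2, 3, 4, 5, 6]) : ℤ) - 1893

theorem pointA {x : ℕ → ℤ} (hx : Sg x) (h2 : ∀ m, 1 ≤ m → x (2 * m) = - x m)
    (h3 : ∀ m, 1 ≤ m → x (3 * m) = - x m) (d : ℕ) (hd : d.Coprime 6) (n : ℕ) (hn : 1 ≤ n) :
    8000 * (x n * x (n + d) * x (n + 2 * d) * x (n + 3 * d)) ≤
      3770 + ∑ j ∈ range 18, alA (n * d % 6) j * (x n * x (n + (j + 1) * d)) +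
      (gaA x d n - gaA x d (n + d)) +
      ((if 2 ∣ n then 2 * b2A x d (n / 2) else 0) - b2A x d n) +
      ((if 3 ∣ n then 3 * b3A x d (n / 3) else 0) - b3A x d n) := by
  have hd2 : d % 2 = 1 := by
    have : ¬ 2 ∣ d := fun h => by
      have := Nat.dvd_gcd h (show 2 ∣ 6 by norm_num)
      rw [hd] at this
      omega
    omega
  have hd3 : d % 3 = 1 ∨ d % 3 = 2 := by
    have : ¬ 3 ∣ d := fun h => by
      have := Nat.dvd_gcd h (show 3 ∣ 6 by norm_num)
      rw [hd] at this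
      omega
    omega
  have hdd : d * d % 6 = 1 := by
    have h6 : d % 6 = 1 ∨ d % 6 = 5 := by omega
    rw [Nat.mul_mod]
    rcases h6 with h | h <;> rw [h]
  -- the residue classes
  have hs : (n + d) * d % 6 = (n * d % 6 + 1) % 6 := by
    rw [add_mul, Nat.add_mod, hdd]
  have hr3 : n * d % 3 = n * d % 6 % 3 := by omega
  have hr2 : n * d % 2 = n * d % 6 % 2 := by omega
  have hdv2 : 2 ∣ n ↔ n * d % 6 % 2 = 0 := by
    rw [← hr2, Nat.mul_mod, hd2, mul_one, Nat.mod_mod]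
    exact Nat.dvd_iff_mod_eq_zero
  have hdv3 : 3 ∣ n ↔ n * d % 6 % 3 = 0 := by
    rw [← hr3, Nat.mul_mod]
    have : n % 3 < 3 := Nat.mod_lt _ (by norm_num)
    rw [Nat.dvd_iff_mod_eq_zero]
    rcases hd3 with h | h <;> rw [h] <;> interval_cases (n % 3) <;> simp
  have hh2 : 2 ∣ n → n / 2 * d % 3 = n * d % 6 / 2 := by
    rintro ⟨k, rfl⟩
    rw [Nat.mul_div_cancel_left k (by norm_num), mul_assoc]
    omega
  have hh3 : 3 ∣ n → n / 3 * d % 2 = n * d % 6 / 3 := by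
    rintro ⟨k, rfl⟩
    rw [Nat.mul_div_cancel_left k (by norm_num), mul_assoc]
    omega
  -- the bits
  have hP := bt_p4 hx n d
  have hsum : ∑ j ∈ range 18, alA (n * d % 6) j * (x n * x (n + (j + 1) * d)) =
      ∑ j ∈ range 18, alA (n * d % 6) j * (1 - 2 * ((bt x n d (j + 1)).toNat : ℤ)) := by
    apply sum_congr rfl
    intro j _
    rw [bt_mul hx]
  have hG : gaA x d (n + d) = tb (GA ((n * d % 6 + 1) % 6))
      (16 * idx (fun j => xor (bt x n d (j + 1)) (bt x n d 1)) [1, 2, 3, 4, 5, 6, 7, 8, 9, 10, 11, 12, 13, 14, 15, 16, 17]) := by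
    unfold gaA
    rw [hs]
    have : bt x (n + d) d = fun j => xor (bt x n d (j + 1)) (bt x n d 1) := by
      funext j
      exact bt_shift hx n d j
    rw [this]
  have hB2 : 2 ∣ n → b2A x d (n / 2) = (tb (PA (n * d % 6 / 2)) (16 * idx (bt x n d) [2, 4, 6, 8, 10, 12, 14, 16, 18]) : ℤ) - 4872 := by
    intro h
    unfold b2A
    rw [hh2 h]
    obtain ⟨k, rfl⟩ := h
    rw [Nat.mul_div_cancel_left k (by norm_num)]
    have e1 := idx_map (bt x (2 * k) d) (fun j => 2 * j) [1, 2, 3, 4, 5, 6, 7, 8, 9]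
    have e2 : List.map (fun j => 2 * j) [1, 2, 3, 4, 5, 6, 7, 8, 9] = [2, 4, 6, 8, 10, 12, 14, 16, 18] := rfl
    rw [e2] at e1
    rw [e1]
    have e3 : (fun j => bt x (2 * k) d (2 * j)) = bt x k d := by
      funext j
      exact bt_dil 2 h2 k d j (by omega)
    rw [e3]
  have hB3 : 3 ∣ n → b3A x d (n / 3) = (tb (QA (n * d % 6 / 3)) (16 * idx (bt x n d) [3, 6, 9, 12, 15, 18]) : ℤ) - 1893 := by
    intro h
    unfold b3A
    rw [hh3 h]
    obtain ⟨k, rfl⟩ := h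
    rw [Nat.mul_div_cancel_left k (by norm_num)]
    have e1 := idx_map (bt x (3 * k) d) (fun j => 3 * j) [1, 2, 3, 4, 5, 6]
    have e2 : List.map (fun j => 3 * j) [1, 2, 3, 4, 5, 6] = [3, 6, 9, 12, 15, 18] := rfl
    rw [e2] at e1
    rw [e1]
    have e3 : (fun j => bt x (3 * k) d (3 * j)) = bt x k d := by
      funext j
      exact bt_dil 3 h3 k d j (by omega)
    rw [e3]
  rw [hP, hsum, hG]
  have hb2 : b2A x d n = (tb (PA (n * d % 6 % 3)) (16 * idx (bt x n d) [1, 2, 3, 4, 5, 6, 7, 8, 9]) : ℤ) - 4872 := by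
    unfold b2A; rw [hr3]
  have hb3 : b3A x d n = (tb (QA (n * d % 6 % 2)) (16 * idx (bt x n d) [1, 2, 3, 4, 5, 6]) : ℤ) - 1893 := by
    unfold b3A; rw [hr2]
  have hg : gaA x d n = (tb (GA (n * d % 6)) (16 * idx (bt x n d) [1, 2, 3, 4, 5, 6, 7, 8, 9, 10, 11, 12, 13, 14, 15, 16, 17]) : ℤ) := rfl
  rw [hb2, hb3, hg]
  have hlt : n * d % 6 < 6 := Nat.mod_lt _ (by norm_num)
  generalize hrdef : n * d % 6 = r at *
  have hc : r = 0 ∨ r = 1 ∨ r = 2 ∨ r = 3 ∨ r = 4 ∨ r = 5 := by omega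
  rcases hc with rfl | rfl | rfl | rfl | rfl | rfl
  · have k2 : 2 ∣ n := hdv2.2 rfl
    have k3 : 3 ∣ n := hdv3.2 rfl
    rw [if_pos k2, if_pos k3, hB2 k2, hB3 k3]
    exact cert0 _
  · have k2 : ¬ 2 ∣ n := fun h => by have := hdv2.1 h; norm_num at this
    have k3 : ¬ 3 ∣ n := fun h => by have := hdv3.1 h; norm_num at this
    rw [if_neg k2, if_neg k3]
    exact cert1 _
  · have k2 : 2 ∣ n := hdv2.2 rfl
    have k3 : ¬ 3 ∣ n := fun h => by have := hdv3.1 h; norm_num at this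
    rw [if_pos k2, if_neg k3, hB2 k2]
    exact cert2 _
  · have k2 : ¬ 2 ∣ n := fun h => by have := hdv2.1 h; norm_num at this
    have k3 : 3 ∣ n := hdv3.2 rfl
    rw [if_neg k2, if_pos k3, hB3 k3]
    exact cert3 _
  · have k2 : 2 ∣ n := hdv2.2 rfl
    have k3 : ¬ 3 ∣ n := fun h => by have := hdv3.1 h; norm_num at this
    rw [if_pos k2, if_neg k3, hB2 k2]
    exact cert4 _
  · have k2 : ¬ 2 ∣ n := fun h => by have := hdv2.1 h; norm_num at this
    have k3 : ¬ 3 ∣ n := fun h => by have := hdv3.1 h; norm_num at this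
    rw [if_neg k2, if_neg k3]
    exact cert5 _

lemma lam_sg : Sg lam := by
  intro n
  unfold Pool.Agent.H376R2.MR.lam
  exact neg_one_pow_eq_or ℤ _

lemma lam_prime (p : ℕ) (hp : p.Prime) (m : ℕ) (hm : 1 ≤ m) : lam (p * m) = - lam m := by
  unfold Pool.Agent.H376R2.MR.lam
  rw [ArithmeticFunction.cardFactors_mul hp.ne_zero (by omega), ArithmeticFunction.cardFactors_apply_prime hp,
    pow_add, pow_one]
  ring

lemma al_le (L : List ℤ) (hL : ∀ z ∈ L, |z| ≤ 8000) (j : ℕ) : |L.getD j 0| ≤ 8000 := by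
  rw [List.getD_eq_getElem?_getD]
  rcases h : L[j]? with _ | z
  · simp
  · simp only [Option.getD_some]
    exact hL z (List.mem_of_getElem? h)

lemma alA_le (r j : ℕ) : |alA r j| ≤ 8000 := by
  unfold alA
  split
  · exact al_le _ (by decide) j
  · exact al_le _ (by decide) j
  · exact al_le _ (by decide) j
  · exact al_le _ (by decide) j
  · exact al_le _ (by decide) j
  · exact al_le _ (by decide) j

theorem fourA (d : ℕ) (hd : d.Coprime 6) : ∃ X₀ : ℕ, ∀ X : ℕ, X₀ ≤ X →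
    ∑ n ∈ Icc 1 X, ((lam n * lam (n + d) * lam (n + 2 * d) * lam (n + 3 * d) : ℤ) : ℝ) / n ≤
      (3771 / 8000 : ℝ) * Real.log X := by
  classical
  have hd1 : 1 ≤ d := by
    rcases Nat.eq_zero_or_pos d with h | h
    · subst h; norm_num at hd
    · exact h
  -- the pair terms
  have hpair : ∀ j : ℕ, ∃ X₀ : ℕ, ∀ X : ℕ, X₀ ≤ X →
      |∑ n ∈ Icc 1 X, ((alA (n * d % 6) j : ℝ) / 8000 * (lam n : ℤ) * (lam (n + (j + 1) * d) : ℤ)) / n| ≤
        1 / 10 ^ 7 * Real.log X := by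
    intro j
    refine two_log ((j + 1) * d) (by nlinarith) 6 (by norm_num) (fun n => (alA (n * d % 6) j : ℝ) / 8000)
      ?_ ?_ _ (by positivity)
    · intro n
      have h := alA_le (n * d % 6) j
      rw [abs_div, abs_of_pos (by norm_num : (0 : ℝ) < 8000), div_le_one (by norm_num)]
      exact_mod_cast h
    · intro n
      have : (n + 6) * d % 6 = n * d % 6 := by
        rw [add_mul]
        omega
      simp only [this]
  choose Y hY using hpair
  obtain ⟨Z, hZ⟩ := eventually_atTop.1 (log_atTop'.eventually_ge_atTop (10 ^ 9 * ((d : ℝ) + 1)))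
  refine ⟨Z + ∑ j ∈ range 18, Y j, fun X hX => ?_⟩
  have hlog := hZ X (by omega)
  have hYX : ∀ j ∈ range 18, Y j ≤ X := by
    intro j hj
    have := single_le_sum (f := Y) (fun _ _ => Nat.zero_le _) hj
    omega
  -- sum of the pointwise inequality
  have hpt : ∀ n ∈ Icc 1 X,
      ((lam n * lam (n + d) * lam (n + 2 * d) * lam (n + 3 * d) : ℤ) : ℝ) / n ≤
        3770 / 8000 * (1 / (n : ℝ)) +
        ∑ j ∈ range 18, ((alA (n * d % 6) j : ℝ) / 8000 * (lam n : ℤ) * (lam (n + (j + 1) * d) : ℤ)) / n +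
        1 / 8000 * (((gaA lam d n : ℝ) - (gaA lam d (n + d) : ℝ)) / n) +
        1 / 8000 * (((if 2 ∣ n then ((2 : ℕ) : ℝ) * (b2A lam d (n / 2) : ℝ) else 0) - (b2A lam d n : ℝ)) / n) +
        1 / 8000 * (((if 3 ∣ n then ((3 : ℕ) : ℝ) * (b3A lam d (n / 3) : ℝ) else 0) - (b3A lam d n : ℝ)) / n) := by
    intro n hn
    rw [mem_Icc] at hn
    have hn0 : (0 : ℝ) < n := by exact_mod_cast hn.1
    have h := pointA lam_sg (lam_prime 2 Nat.prime_two) (lam_prime 3 Nat.prime_three) d hd n hn.1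
    have h' : ((8000 * (lam n * lam (n + d) * lam (n + 2 * d) * lam (n + 3 * d)) : ℤ) : ℝ) ≤
        ((3770 + ∑ j ∈ range 18, alA (n * d % 6) j * (lam n * lam (n + (j + 1) * d)) +
      (gaA lam d n - gaA lam d (n + d)) +
      ((if 2 ∣ n then 2 * b2A lam d (n / 2) else 0) - b2A lam d n) +
      ((if 3 ∣ n then 3 * b3A lam d (n / 3) else 0) - b3A lam d n) : ℤ) : ℝ) := by exact_mod_cast h
    push_cast at h'
    have e1 : ∑ j ∈ range 18, ((alA (n * d % 6) j : ℝ) / 8000 * (lam n : ℤ) * (lam (n + (j + 1) * d) : ℤ)) / n =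
        1 / 8000 * (∑ j ∈ range 18, (alA (n * d % 6) j : ℝ) * ((lam n : ℝ) * (lam (n + (j + 1) * d) : ℝ))) / n := by
      rw [mul_sum, sum_div]
      apply sum_congr rfl
      intro j _
      ring
    rw [e1, div_le_iff₀ hn0]
    push_cast
    generalize (∑ j ∈ range 18, (alA (n * d % 6) j : ℝ) * ((lam n : ℝ) * (lam (n + (j + 1) * d) : ℝ))) = S at *
    have e2 : (3770 / 8000 * (1 / (n : ℝ)) +
        1 / 8000 * S / n +
        1 / 8000 * (((gaA lam d n : ℝ) - (gaA lam d (n + d) : ℝ)) / n) +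
        1 / 8000 * (((if 2 ∣ n then (2 : ℝ) * (b2A lam d (n / 2) : ℝ) else 0) - (b2A lam d n : ℝ)) / n) +
        1 / 8000 * (((if 3 ∣ n then (3 : ℝ) * (b3A lam d (n / 3) : ℝ) else 0) - (b3A lam d n : ℝ)) / n)) * n =
        1 / 8000 * (3770 + S +
        ((gaA lam d n : ℝ) - (gaA lam d (n + d) : ℝ)) +
        ((if 2 ∣ n then (2 : ℝ) * (b2A lam d (n / 2) : ℝ) else 0) - (b2A lam d n : ℝ)) +
        ((if 3 ∣ n then (3 : ℝ) * (b3A lam d (n / 3) : ℝ) else 0) - (b3A lam d n : ℝ))) := by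
      field_simp
    rw [e2]
    linarith
  refine (sum_le_sum hpt).trans ?_
  rw [sum_add_distrib, sum_add_distrib, sum_add_distrib, sum_add_distrib, ← mul_sum, ← mul_sum, ← mul_sum,
    ← mul_sum, sum_comm]
  have t1 := harm X
  have t2 : ∑ j ∈ range 18, ∑ n ∈ Icc 1 X,
      ((alA (n * d % 6) j : ℝ) / 8000 * (lam n : ℤ) * (lam (n + (j + 1) * d) : ℤ)) / n ≤
      18 * (1 / 10 ^ 7 * Real.log X) := by
    have : ∑ j ∈ range 18, ∑ n ∈ Icc 1 X,
      ((alA (n * d % 6) j : ℝ) / 8000 * (lam n : ℤ) * (lam (n + (j + 1) * d) : ℤ)) / n ≤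
      ∑ j ∈ range 18, 1 / 10 ^ 7 * Real.log X :=
      sum_le_sum fun j hj => (le_abs_self _).trans (hY j X (hYX j hj))
    rw [sum_const, card_range, nsmul_eq_mul] at this
    exact_mod_cast this
  have hga : ∀ n, |(gaA lam d n : ℝ)| ≤ 65535 := by
    intro n
    unfold gaA
    rw [Int.cast_natCast, abs_of_nonneg (Nat.cast_nonneg _)]
    exact_mod_cast tb_le _ _
  have hb2 : ∀ n, |(b2A lam d n : ℝ)| ≤ 65535 := by
    intro n
    unfold b2A
    have h1 := tb_le (PA (n * d % 3)) (16 * idx (bt lam n d) [1, 2, 3, 4, 5, 6, 7, 8, 9])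
    have h2 : ((tb (PA (n * d % 3)) (16 * idx (bt lam n d) [1, 2, 3, 4, 5, 6, 7, 8, 9]) : ℕ) : ℝ) ≤ 65535 := by
      exact_mod_cast h1
    have h3 : (0 : ℝ) ≤ ((tb (PA (n * d % 3)) (16 * idx (bt lam n d) [1, 2, 3, 4, 5, 6, 7, 8, 9]) : ℕ) : ℝ) :=
      Nat.cast_nonneg _
    push_cast
    rw [abs_le]
    constructor <;> linarith
  have hb3 : ∀ n, |(b3A lam d n : ℝ)| ≤ 65535 := by
    intro n
    unfold b3A
    have h1 := tb_le (QA (n * d % 2)) (16 * idx (bt lam n d) [1, 2, 3, 4, 5, 6])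
    have h2 : ((tb (QA (n * d % 2)) (16 * idx (bt lam n d) [1, 2, 3, 4, 5, 6]) : ℕ) : ℝ) ≤ 65535 := by
      exact_mod_cast h1
    have h3 : (0 : ℝ) ≤ ((tb (QA (n * d % 2)) (16 * idx (bt lam n d) [1, 2, 3, 4, 5, 6]) : ℕ) : ℝ) :=
      Nat.cast_nonneg _
    push_cast
    rw [abs_le]
    constructor <;> linarith
  have t3 := (abs_le.1 (shift_log (fun n => (gaA lam d n : ℝ)) 65535 hga d X)).2
  have t4 := (abs_le.1 (dil_log 2 (by norm_num) (fun n => (b2A lam d n : ℝ)) 65535 hb2 X)).2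
  have t5 := (abs_le.1 (dil_log 3 (by norm_num) (fun n => (b3A lam d n : ℝ)) 65535 hb3 X)).2
  push_cast at t4 t5 ⊢
  have hd0 : (0 : ℝ) ≤ d := Nat.cast_nonneg d
  nlinarith

end Pool.Agent.E8helper83.FP.B
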