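import Pool.Agent.E8helper83.FP.CheckUP
import Pool.Agent.E8helper83.FP.CheckUN
import Pool.Agent.E8helper83.FP.Bits
import Pool.Agent.E8helper83.FP.LogSum

/-!
Library E8helper83.FP (helper83): four-term correlations along progressions, averaged over the
differences `2 ^ i 3 ^ j 5 ^ l d`.
-/

set_option autoImplicit false

namespace Pool.Agent.E8helper83.FP

open Finset Filter Topology
open Pool.Agent.H376R2.MR (lam)
open Pool.Agent.Y958.TC (Av)
open Pool.Agent.Y958.U (LZ ls li ls_eq li_mem li_not abel_log LZ_iff diag')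

/-- the four-term product -/
def P4 (x : ℕ → ℤ) (d n : ℕ) : ℤ := x n * x (n + d) * x (n + 2 * d) * x (n + 3 * d)

/-- the data of a certificate -/
structure Cert (s T : ℤ) (al : ℕ → ℤ) (G B2 B3 B4 B5 B6 : ℕ) : Prop where
  c : ∀ b : ℕ → Bool, 8000 * (s * (if xor (b 1) (xor (b 2) (b 3)) then -1 else 1 : ℤ)) ≤
    T + ∑ j ∈ range 18, al j * (1 - 2 * ((b (j + 1)).toNat : ℤ)) +
      ((rhU G B2 B3 B4 B5 B6 b : ℤ) - lhU G B2 B3 B4 B5 B6 b)
  a : ∀ j, |al j| ≤ 8000

lemma certP : Cert 1 3097 UP.al UP.G UP.B2 UP.B3 UP.B4 UP.B5 UP.B6 := by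
  constructor
  · intro b
    have := UP.cert b
    rw [one_mul]
    exact this
  · intro j
    by_cases hj : j < 18
    · interval_cases j <;> decide
    · have : UP.al j = 0 := by
        unfold UP.al
        apply List.getD_eq_default
        simp
        omega
      rw [this]
      norm_num

lemma certN : Cert (-1) 3165 UN.al UN.G UN.B2 UN.B3 UN.B4 UN.B5 UN.B6 := by
  constructor
  · intro b
    have := UN.cert b
    rw [neg_one_mul]
    exact this
  · intro j
    by_cases hj : j < 18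
    · interval_cases j <;> decide
    · have : UN.al j = 0 := by
        unfold UN.al
        apply List.getD_eq_default
        simp
        omega
      rw [this]
      norm_num

/-- an entry of a table at the window with positions `1, …, m` -/
def tw (x : ℕ → ℤ) (B : ℕ) (l : List ℕ) (n d : ℕ) : ℤ := tb B (16 * idx (bt x n d) l)

lemma tw_abs (x : ℕ → ℤ) (B : ℕ) (l : List ℕ) (n d : ℕ) : |(tw x B l n d : ℝ)| ≤ 65535 := by
  unfold tw
  rw [Int.cast_natCast, abs_of_nonneg (Nat.cast_nonneg _)]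
  exact_mod_cast tb_le _ _

lemma idx_step (x : ℕ → ℤ) (n d k : ℕ) (l : List ℕ) :
    idx (bt x n d) (l.map (fun j => k * j)) = idx (bt x n (k * d)) l := by
  rw [idx_map]
  congr 1
  funext j
  rw [bt_step]

/-- the pointwise inequality -/
theorem pointU {x : ℕ → ℤ} (hx : Sg x) {s T : ℤ} {al : ℕ → ℤ} {G B2 B3 B4 B5 B6 : ℕ}
    (hc : Cert s T al G B2 B3 B4 B5 B6) (n d : ℕ) :
    8000 * (s * P4 x d n) ≤ T + ∑ j ∈ range 18, al j * (x n * x (n + (j + 1) * d)) +
      (tw x G [1, 2, 3, 4, 5, 6, 7, 8, 9, 10, 11, 12, 13, 14, 15, 16, 17] n d -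
        tw x G [1, 2, 3, 4, 5, 6, 7, 8, 9, 10, 11, 12, 13, 14, 15, 16, 17] (n + d) d) +
      (tw x B2 [1, 2, 3, 4, 5, 6, 7, 8, 9] n (2 * d) - tw x B2 [1, 2, 3, 4, 5, 6, 7, 8, 9] n d) +
      (tw x B3 [1, 2, 3, 4, 5, 6] n (3 * d) - tw x B3 [1, 2, 3, 4, 5, 6] n d) +
      (tw x B4 [1, 2, 3, 4] n (4 * d) - tw x B4 [1, 2, 3, 4] n d) +
      (tw x B5 [1, 2, 3] n (5 * d) - tw x B5 [1, 2, 3] n d) +
      (tw x B6 [1, 2, 3] n (6 * d) - tw x B6 [1, 2, 3] n d) := by
  have h := hc.c (bt x n d)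
  rw [← bt_p4 hx] at h
  have hsum : ∑ j ∈ range 18, al j * (x n * x (n + (j + 1) * d)) =
      ∑ j ∈ range 18, al j * (1 - 2 * ((bt x n d (j + 1)).toNat : ℤ)) := by
    apply sum_congr rfl
    intro j _
    rw [bt_mul hx]
  rw [← hsum] at h
  have hsh : (fun j => xor (bt x n d (j + 1)) (bt x n d 1)) = bt x (n + d) d := by
    funext j
    exact (bt_shift hx n d j).symm
  unfold lhU rhU at h
  rw [hsh] at h
  have e2 := idx_step x n d 2 [1, 2, 3, 4, 5, 6, 7, 8, 9]
  have e3 := idx_step x n d 3 [1, 2, 3, 4, 5, 6]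
  have e4 := idx_step x n d 4 [1, 2, 3, 4]
  have e5 := idx_step x n d 5 [1, 2, 3]
  have e6 := idx_step x n d 6 [1, 2, 3]
  simp only [List.map_cons, List.map_nil, Nat.reduceMul, Nat.mul_one] at e2 e3 e4 e5 e6
  rw [e2, e3, e4, e5, e6] at h
  push_cast at h
  unfold tw P4
  linarith

end Pool.Agent.E8helper83.FP
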